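import Pool.Agent.Lib_helper15.EXC.XB
import Mathlib.Analysis.ODE.Gronwall

/-!
# EXC, part X: the L-function of an exceptional character near `1`

Block XC: theorem X1.
-/

set_option autoImplicit false

namespace Pool.Agent.EXC

open Finset Complex Metric Filter
open Pool.Agent.GA
open scoped ArithmeticFunction.vonMangoldt Topology

/-- for real `x > 1` the value `L(x, χ)` is positive -/
theorem xc_pos {q : ℕ} [NeZero q] {χ : DirichletCharacter ℂ q} (h2 : χ ^ 2 = 1) {x : ℝ}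
    (hx : 1 < x) : ∃ r : ℝ, LF χ (x : ℂ) = (Real.exp r : ℝ) := by
  have hx' : 1 < (x : ℂ).re := by simpa using hx
  have h1 := DirichletCharacter.LSeries_eulerProduct_exp_log χ hx'
  rw [LF_eq_LS χ hx', ← h1]
  have him : (∑' p : Nat.Primes, -Complex.log (1 - χ (p : ℕ) * (p : ℕ) ^ (-(x : ℂ)))).im = 0 := by
    have hterm : ∀ p : Nat.Primes,
        (-Complex.log (1 - χ (p : ℕ) * (p : ℕ) ^ (-(x : ℂ)))).im = 0 := by
      intro p
      have hp0 : (0 : ℝ) < (p : ℕ) := by exact_mod_cast p.2.pos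
      have hp1 : (1 : ℝ) < (p : ℕ) := by exact_mod_cast p.2.one_lt
      have h3 : ((p : ℕ) : ℂ) ^ (-(x : ℂ)) = (((p : ℕ) : ℝ) ^ (-x) : ℝ) := by
        rw [Complex.ofReal_cpow hp0.le]
        push_cast
        rfl
      have h4 : ((p : ℕ) : ℝ) ^ (-x) < 1 := Real.rpow_lt_one_of_one_lt_of_neg hp1 (by linarith)
      have h5 : 0 < ((p : ℕ) : ℝ) ^ (-x) := Real.rpow_pos_of_pos hp0 _
      obtain ⟨v, hv⟩ : ∃ v : ℝ, χ ((p : ℕ) : ZMod q) = (v : ℂ) :=
        ⟨(χ ((p : ℕ) : ZMod q)).re, by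
          apply Complex.ext
          · simp
          · rw [xa_val h2]; simp⟩
      have hv1 : |v| ≤ 1 := by
        have := χ.norm_le_one ((p : ℕ) : ZMod q)
        rw [hv, Complex.norm_real, Real.norm_eq_abs] at this
        exact this
      have h6 : (1 : ℂ) - χ (p : ℕ) * (p : ℕ) ^ (-(x : ℂ)) =
          ((1 - v * ((p : ℕ) : ℝ) ^ (-x) : ℝ) : ℂ) := by
        rw [hv, h3]
        push_cast
        ring
      have h7 : 0 ≤ 1 - v * ((p : ℕ) : ℝ) ^ (-x) := by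
        have h8 : v * ((p : ℕ) : ℝ) ^ (-x) ≤ 1 * ((p : ℕ) : ℝ) ^ (-x) :=
          mul_le_mul_of_nonneg_right (abs_le.1 hv1).2 h5.le
        linarith
      rw [h6, ← Complex.ofReal_log h7, Complex.neg_im, Complex.ofReal_im, neg_zero]
    by_cases hs : Summable fun p : Nat.Primes =>
        -Complex.log (1 - χ (p : ℕ) * (p : ℕ) ^ (-(x : ℂ)))
    · have h3 := Complex.hasSum_im hs.hasSum
      simp only [hterm] at h3
      exact h3.unique hasSum_zero
    · rw [tsum_eq_zero_of_not_summable hs]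
      simp
  refine ⟨(∑' p : Nat.Primes, -Complex.log (1 - χ (p : ℕ) * (p : ℕ) ^ (-(x : ℂ)))).re, ?_⟩
  rw [Complex.ofReal_exp]
  congr 1
  apply Complex.ext
  · simp
  · rw [him]; simp

/-- `L(1, χ)` is positive -/
theorem xc_one {q : ℕ} [NeZero q] {χ : DirichletCharacter ℂ q} (hχ : χ ≠ 1) (h2 : χ ^ 2 = 1) :
    ∃ l : ℝ, 0 < l ∧ LF χ 1 = (l : ℂ) := by
  have hd := LF_diff hχ
  have hc : Continuous (fun x : ℝ => LF χ (x : ℂ)) := hd.continuous.comp continuous_ofReal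
  have hlim : Tendsto (fun x : ℝ => LF χ (x : ℂ)) (𝓝[>] 1) (𝓝 (LF χ 1)) := by
    have := (hc.tendsto 1).mono_left (nhdsWithin_le_nhds (s := Set.Ioi (1 : ℝ)))
    simpa using this
  have him : (LF χ 1).im = 0 := by
    have h3 := (Complex.continuous_im.tendsto _).comp hlim
    refine tendsto_nhds_unique h3 ?_
    refine tendsto_const_nhds.congr' ?_
    filter_upwards [self_mem_nhdsWithin] with x hx
    obtain ⟨r, hr⟩ := xc_pos h2 (show (1 : ℝ) < x from hx)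
    show (0 : ℝ) = (LF χ (x : ℂ)).im
    rw [hr, Complex.ofReal_im]
  have hre : 0 ≤ (LF χ 1).re := by
    have h3 := (Complex.continuous_re.tendsto _).comp hlim
    refine ge_of_tendsto h3 ?_
    filter_upwards [self_mem_nhdsWithin] with x hx
    obtain ⟨r, hr⟩ := xc_pos h2 (show (1 : ℝ) < x from hx)
    show (0 : ℝ) ≤ (LF χ (x : ℂ)).re
    rw [hr, Complex.ofReal_re]
    exact (Real.exp_pos r).le
  have hne : LF χ 1 ≠ 0 := LF_ne_zero hχ (by simp)
  have h4 : LF χ 1 = ((LF χ 1).re : ℂ) := by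
    apply Complex.ext
    · simp
    · rw [him]; simp
  refine ⟨(LF χ 1).re, lt_of_le_of_ne hre ?_, h4⟩
  intro h
  apply hne
  rw [h4, ← h, Complex.ofReal_zero]

/-- growth from a bound for the logarithmic derivative -/
theorem xc_growth {g : ℂ → ℂ} (hg : Differentiable ℂ g) {w : ℂ} {K : ℝ} (hK : 0 ≤ K)
    (h : ∀ t ∈ Set.Icc (0 : ℝ) 1, g (1 + t * w) ≠ 0 ∧ ‖logDeriv g (1 + t * w)‖ ≤ K)
    (hw : K * ‖w‖ ≤ 1 / 2) :
    ‖g (1 + w)‖ ≤ 2 * ‖g 1‖ ∧ ‖g (1 + w) - g 1‖ ≤ 2 * K * ‖w‖ * ‖g 1‖ := by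
  set f : ℝ → ℂ := fun t => g (1 + t * w) with hf
  have hder : ∀ t : ℝ, HasDerivAt f (deriv g (1 + t * w) * w) t := by
    intro t
    have h1 : HasDerivAt (fun t : ℝ => (1 : ℂ) + (t : ℂ) * w) w t := by
      have h2 : HasDerivAt (fun t : ℝ => ((t : ℝ) : ℂ)) 1 t := Complex.ofRealCLM.hasDerivAt
      have h3 := (h2.mul_const w).const_add 1
      simpa using h3
    exact (hg (1 + t * w)).hasDerivAt.comp t h1
  have hbd : ∀ t ∈ Set.Icc (0 : ℝ) 1, ‖deriv g (1 + t * w) * w‖ ≤ K * ‖w‖ * ‖f t‖ := by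
    intro t ht
    obtain ⟨h1, h2⟩ := h t ht
    rw [logDeriv_apply, norm_div, div_le_iff₀ (norm_pos_iff.2 h1)] at h2
    rw [norm_mul]
    calc ‖deriv g (1 + t * w)‖ * ‖w‖ ≤ (K * ‖g (1 + t * w)‖) * ‖w‖ :=
          mul_le_mul_of_nonneg_right h2 (norm_nonneg _)
      _ = _ := by rw [hf]; ring
  have hG := norm_le_gronwallBound_of_norm_deriv_right_le (f := f)
    (f' := fun t => deriv g (1 + t * w) * w) (δ := ‖g 1‖) (K := K * ‖w‖) (ε := 0) (a := 0)
    (b := 1) (fun t _ => (hder t).continuousAt.continuousWithinAt)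
    (fun t _ => (hder t).hasDerivWithinAt) (by rw [hf]; simp)
    (fun t ht => by rw [add_zero]; exact hbd t ⟨ht.1, ht.2.le⟩)
  have hexp : ∀ t ∈ Set.Icc (0 : ℝ) 1, ‖f t‖ ≤ 2 * ‖g 1‖ := by
    intro t ht
    refine (hG t ht).trans ?_
    rw [gronwallBound_ε0, sub_zero, mul_comm]
    apply mul_le_mul_of_nonneg_right _ (norm_nonneg _)
    have h0 : 0 ≤ K * ‖w‖ := by positivity
    calc Real.exp (K * ‖w‖ * t) ≤ Real.exp (1 / 2) := by
          apply Real.exp_le_exp.2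
          nlinarith [ht.1, ht.2]
      _ ≤ 2 := by
          have h1 : Real.exp (1 / 2) ^ 2 = Real.exp 1 := by
            rw [← Real.exp_nat_mul]
            norm_num
          have h2 := Real.exp_one_lt_d9
          have h3 := Real.exp_pos (1 / 2)
          nlinarith
  have e1 : f 1 = g (1 + w) := by rw [hf]; simp
  have e0 : f 0 = g 1 := by rw [hf]; simp
  constructor
  · have := hexp 1 ⟨zero_le_one, le_rfl⟩
    rwa [e1] at this
  · have h3 := norm_image_sub_le_of_norm_deriv_le_segment_01' (f := f)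
      (f' := fun t => deriv g (1 + t * w) * w) (C := 2 * K * ‖w‖ * ‖g 1‖)
      (fun t _ => (hder t).hasDerivWithinAt) (fun t ht => by
        refine (hbd t ⟨ht.1, ht.2.le⟩).trans ?_
        have h4 := hexp t ⟨ht.1, ht.2.le⟩
        calc K * ‖w‖ * ‖f t‖ ≤ K * ‖w‖ * (2 * ‖g 1‖) :=
              mul_le_mul_of_nonneg_left h4 (by positivity)
          _ = _ := by ring)
    rwa [e1, e0] at h3

/-- **X1** -/
theorem x1 : ∃ C : ℝ, 1 ≤ C ∧ ∃ c : ℝ, 0 < c ∧ c ≤ 1 ∧ ∀ (q : ℕ) [NeZero q]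
    (χ : DirichletCharacter ℂ q), χ ≠ 1 → χ ^ 2 = 1 → ∀ β : ℝ, LF χ (β : ℂ) = 0 →
    (1 - β) * Real.log q ≤ c →
    0 < 1 - β ∧ ∃ (g : ℂ → ℂ) (g₀ : ℝ), Differentiable ℂ g ∧ 0 < g₀ ∧ g 0 = (g₀ : ℂ) ∧
      (∀ w, LF χ (1 + w) = (w + (1 - β : ℝ)) * g w) ∧
      ∀ w : ℂ, ‖w‖ ≤ c / Real.log q → g w ≠ 0 ∧ ‖g w‖ ≤ 2 * g₀ ∧
        ‖g w - g₀‖ ≤ C * Real.log q * ‖w‖ * g₀ := by
  obtain ⟨C, hC, a, ha, ha1, hmain⟩ := xb_main
  obtain ⟨A, hA, hpar⟩ := z3_par ha
  have hA0 : 0 < A := by linarith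
  refine ⟨2 * C * A, by nlinarith, min (a ^ 2 / A) (1 / (2 * C * A)), by positivity, ?_,
    fun q _ χ hχ hχ2 β hβ hβq => ?_⟩
  · refine (min_le_left _ _).trans ?_
    rw [div_le_one hA0]
    nlinarith
  have hq3 := three_le hχ
  have hqr : (3 : ℝ) ≤ q := by exact_mod_cast hq3
  have hlq : 0 < Real.log q := Real.log_pos (by linarith)
  obtain ⟨hℒ1, hexp, hσa, hlt, -⟩ := hpar q (by omega)
  set ℒ : ℝ := A * Real.log q with hℒ
  have hℒ0 : 0 < ℒ := by linarith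
  have hβ1 : 0 < 1 - β := by
    have := z3_zero_re hχ hβ
    rw [Complex.ofReal_re] at this
    linarith
  have h1 : (1 - β) * ℒ ≤ a ^ 2 := by
    have h2 := hβq.trans (min_le_left _ _)
    rw [le_div_iff₀ hA0] at h2
    rw [hℒ]
    linarith
  obtain ⟨g, hg, hfac, hball⟩ := hmain a ha le_rfl q χ hχ hχ2 ℒ hℒ1
    (hlt q (Finset.mem_Icc.2 ⟨by omega, le_rfl⟩) 0 (by rw [abs_zero]; positivity)) hexp β hβ h1
  obtain ⟨l, hl, hl1⟩ := xc_one hχ hχ2
  have hg1 : g 1 = ((l / (1 - β) : ℝ) : ℂ) := by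
    have h2 := hfac 1
    rw [hl1] at h2
    have h3 : (1 - (β : ℂ)) ≠ 0 := by
      have : ((1 - β : ℝ) : ℂ) ≠ 0 := by exact_mod_cast hβ1.ne'
      simpa using this
    push_cast
    rw [h2]
    field_simp
  refine ⟨hβ1, fun w => g (1 + w), l / (1 - β), by fun_prop, by positivity, ?_, ?_, ?_⟩
  · show g (1 + 0) = _
    rw [add_zero, hg1]
  · intro w
    rw [hfac]
    push_cast
    ring
  · intro w hw
    have hw1 : ‖w‖ ≤ a / ℒ := by
      refine hw.trans ?_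
      rw [hℒ, div_le_div_iff₀ hlq (by positivity)]
      have h2 : min (a ^ 2 / A) (1 / (2 * C * A)) * A ≤ a := by
        have h3 : min (a ^ 2 / A) (1 / (2 * C * A)) * A ≤ a ^ 2 / A * A :=
          mul_le_mul_of_nonneg_right (min_le_left _ _) hA0.le
        rw [div_mul_cancel₀ _ hA0.ne'] at h3
        nlinarith
      calc min (a ^ 2 / A) (1 / (2 * C * A)) * (A * Real.log q) =
          (min (a ^ 2 / A) (1 / (2 * C * A)) * A) * Real.log q := by ring
        _ ≤ a * Real.log q := mul_le_mul_of_nonneg_right h2 hlq.le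
    have hK : C * ℒ * ‖w‖ ≤ 1 / 2 := by
      have h2 : ‖w‖ ≤ 1 / (2 * C * A) / Real.log q :=
        hw.trans (div_le_div_of_nonneg_right (min_le_right _ _) hlq.le)
      calc C * ℒ * ‖w‖ ≤ C * ℒ * (1 / (2 * C * A) / Real.log q) :=
            mul_le_mul_of_nonneg_left h2 (by positivity)
        _ = 1 / 2 := by rw [hℒ]; field_simp
    have hseg : ∀ t ∈ Set.Icc (0 : ℝ) 1, g (1 + t * w) ≠ 0 ∧
        ‖logDeriv g (1 + t * w)‖ ≤ C * ℒ := by
      intro t ht
      apply hball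
      rw [mem_closedBall, dist_eq_norm]
      have e : (1 + t * w - (1 + (a / ℒ : ℝ)) : ℂ) = t * w - ((a / ℒ : ℝ) : ℂ) := by ring
      rw [e]
      refine (norm_sub_le _ _).trans ?_
      rw [norm_mul, Complex.norm_real, Complex.norm_real, Real.norm_of_nonneg ht.1,
        Real.norm_of_nonneg (by positivity)]
      have : t * ‖w‖ ≤ 1 * ‖w‖ := mul_le_mul_of_nonneg_right ht.2 (norm_nonneg _)
      linarith
    obtain ⟨h4, h5⟩ := xc_growth hg (K := C * ℒ) (by positivity) hseg hK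
    have hn : ‖g 1‖ = l / (1 - β) := by
      rw [hg1, Complex.norm_real, Real.norm_of_nonneg (by positivity)]
    rw [hn] at h4 h5
    refine ⟨?_, h4, ?_⟩
    · have h6 := (hseg 1 ⟨zero_le_one, le_rfl⟩).1
      simpa using h6
    · show ‖g (1 + w) - _‖ ≤ _
      rw [← hg1]
      refine h5.trans (le_of_eq ?_)
      rw [hℒ]
      ring

end Pool.Agent.EXC
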