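import Mathlib

/-!
# EXC, part G: triple circle integrals. Definitions.

`T3 i j r r' Φ` is the coefficient functional `(2πi)⁻³ ∮∮∮ Φ(w,s,z) w⁻² s⁻ⁱ⁻¹ z⁻ʲ⁻¹ (z+s)⁻¹` over
`|s| = |w| = r < r' = |z|`.
-/

set_option autoImplicit false

namespace Pool.Agent.EXC

open Finset Complex Metric Filter
open scoped Topology

/-- the normalised circle integral -/
noncomputable def ci (r : ℝ) (f : ℂ → ℂ) : ℂ := (2 * Real.pi * I)⁻¹ * ∮ z in C(0, r), f z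

/-- the triple integral -/
noncomputable def T3 (i j : ℕ) (r r' : ℝ) (Φ : ℂ → ℂ → ℂ → ℂ) : ℂ :=
  ci r fun s => ci r fun w => ci r' fun z =>
    Φ w s z / (w ^ 2 * s ^ (i + 1) * (z ^ (j + 1) * (z + s)))

/-- the torus -/
def tor (r r' : ℝ) : Set (ℂ × ℂ × ℂ) := {u | ‖u.1‖ = r ∧ ‖u.2.1‖ = r ∧ ‖u.2.2‖ = r'}

/-- the polydisc -/
def pdisc (R : ℝ) : Set (ℂ × ℂ × ℂ) := {u | ‖u.1‖ < R ∧ ‖u.2.1‖ < R ∧ ‖u.2.2‖ < R}

/-- the function of a triple -/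
def un (Φ : ℂ → ℂ → ℂ → ℂ) (u : ℂ × ℂ × ℂ) : ℂ := Φ u.1 u.2.1 u.2.2

/-- the coefficients of `(w + s + δ)² (w + z + δ)²` as a polynomial in `δ` -/
def PP : ℕ → ℂ → ℂ → ℂ → ℂ
  | 0 => fun w s z => (w + s) ^ 2 * (w + z) ^ 2
  | 1 => fun w s z => 2 * (w + s) * (w + z) ^ 2 + 2 * (w + s) ^ 2 * (w + z)
  | 2 => fun w s z => (w + s) ^ 2 + (w + z) ^ 2 + 4 * (w + s) * (w + z)
  | 3 => fun w s z => 2 * (w + s) + 2 * (w + z)
  | _ => fun _ _ _ => 1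

/-- the linear form in the exponent -/
noncomputable def ell (w s z : ℂ) : ℂ := w + (s + z) / 2

end Pool.Agent.EXC
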