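import Pool.Agent.Lib_helper15.EXC.XE
import Mathlib.NumberTheory.TsumDivisorsAntidiagonal

/-!
# EXC, part X: the L-function of an exceptional character near `1`

Block XG: theorem X4, effective lower bound for `L(1, χ)`, by Lambert series.
-/

set_option autoImplicit false

namespace Pool.Agent.EXC

open Finset Complex Metric Filter
open Pool.Agent.GA
open scoped ArithmeticFunction.vonMangoldt Topology

/-! ## Partial summation -/

theorem xg_partial {q : ℕ} [NeZero q] {χ : DirichletCharacter ℂ q} (hχ : χ ≠ 1) (N : ℕ) :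
    |∑ n ∈ range N, vr χ (n + 1)| ≤ q := by
  have h3 := three_le hχ
  have : Nontrivial (ZMod q) := ZMod.nontrivial_iff.mpr (by omega)
  have h4 : χ ((0 : ℕ) : ZMod q) = 0 := by
    rw [Nat.cast_zero, MulChar.map_zero]
  have h5 := lgr_range χ hχ (N + 1)
  rw [Finset.sum_range_succ', h4, add_zero] at h5
  have h6 : ∑ n ∈ range N, vr χ (n + 1) = (∑ n ∈ range N, χ ((n + 1 : ℕ) : ZMod q)).re := by
    rw [Complex.re_sum]
    rfl
  rw [h6]
  exact (Complex.abs_re_le_norm _).trans h5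

theorem xg_abel {f a : ℕ → ℝ} {Q : ℝ} (hf : ∀ N, |∑ n ∈ range N, f n| ≤ Q) (ha : Antitone a)
    (h0 : ∀ n, 0 ≤ a n) (N : ℕ) : |∑ n ∈ range N, a n * f n| ≤ Q * a 0 := by
  have hQ : 0 ≤ Q := (abs_nonneg _).trans (hf 0)
  rcases Nat.eq_zero_or_pos N with rfl | hN
  · simp only [range_zero, sum_empty, abs_zero]
    exact mul_nonneg hQ (h0 0)
  have h1 := Finset.sum_range_by_parts a f N
  simp only [smul_eq_mul] at h1
  rw [h1]
  have h2 : |∑ i ∈ range (N - 1), (a (i + 1) - a i) * ∑ j ∈ range (i + 1), f j| ≤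
      Q * (a 0 - a (N - 1)) := by
    refine (Finset.abs_sum_le_sum_abs _ _).trans ?_
    have h3 : ∀ i ∈ range (N - 1), |(a (i + 1) - a i) * ∑ j ∈ range (i + 1), f j| ≤
        Q * (a i - a (i + 1)) := by
      intro i _
      have h4 := ha (Nat.le_succ i)
      rw [abs_mul, abs_sub_comm, abs_of_nonneg (by linarith), mul_comm]
      exact mul_le_mul_of_nonneg_right (hf _) (by linarith)
    refine (Finset.sum_le_sum h3).trans (le_of_eq ?_)
    rw [← Finset.mul_sum, Finset.sum_range_sub']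
  calc |a (N - 1) * ∑ j ∈ range N, f j -
        ∑ i ∈ range (N - 1), (a (i + 1) - a i) * ∑ j ∈ range (i + 1), f j|
      ≤ |a (N - 1) * ∑ j ∈ range N, f j| +
        |∑ i ∈ range (N - 1), (a (i + 1) - a i) * ∑ j ∈ range (i + 1), f j| := abs_sub _ _
    _ ≤ a (N - 1) * Q + Q * (a 0 - a (N - 1)) := by
        apply add_le_add _ h2
        rw [abs_mul, abs_of_nonneg (h0 _)]
        exact mul_le_mul_of_nonneg_left (hf _) (h0 _)
    _ = _ := by ring

/-! ## The kernel -/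

/-- `1 + t + ... + t^{n-1}` -/
noncomputable def gs (t : ℝ) (n : ℕ) : ℝ := ∑ i ∈ range n, t ^ i

theorem gs_succ (t : ℝ) (n : ℕ) : gs t (n + 1) = t * gs t n + 1 := by
  unfold gs
  rw [Finset.sum_range_succ', Finset.mul_sum, pow_zero]
  congr 1
  exact Finset.sum_congr rfl fun i _ => by ring

theorem gs_pow {r : ℝ} (hr : 0 ≤ r) (m : ℕ) : (m + 1 : ℝ) * r ^ m ≤ gs (r ^ 2) (m + 1) := by
  unfold gs
  have h1 : ∑ i ∈ range (m + 1), (r ^ 2) ^ (m + 1 - 1 - i) = ∑ i ∈ range (m + 1), (r ^ 2) ^ i :=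
    Finset.sum_range_reflect (fun i => (r ^ 2) ^ i) (m + 1)
  have h2 : ∑ i ∈ range (m + 1), 2 * r ^ m ≤
      ∑ i ∈ range (m + 1), ((r ^ 2) ^ i + (r ^ 2) ^ (m + 1 - 1 - i)) := by
    refine Finset.sum_le_sum fun i hi => ?_
    have hi' : i ≤ m := by
      have := Finset.mem_range.1 hi
      omega
    have e1 : r ^ m = r ^ i * r ^ (m - i) := by
      rw [← pow_add]
      congr 1
      omega
    have e2 : (r ^ 2) ^ i = (r ^ i) ^ 2 := by rw [← pow_mul, ← pow_mul, mul_comm]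
    have e3 : (r ^ 2) ^ (m + 1 - 1 - i) = (r ^ (m - i)) ^ 2 := by
      rw [← pow_mul, ← pow_mul, mul_comm]
      congr 2
    rw [e1, e2, e3]
    nlinarith [sq_nonneg (r ^ i - r ^ (m - i))]
  rw [Finset.sum_add_distrib, h1, Finset.sum_const, Finset.card_range, nsmul_eq_mul] at h2
  push_cast at h2
  nlinarith

/-- `1/(n+1) - t^{n+1}/(1 + ... + t^n)` -/
noncomputable def bb (t : ℝ) (n : ℕ) : ℝ := 1 / (n + 1) - t ^ (n + 1) / gs t (n + 1)

theorem gs_pos {t : ℝ} (ht : 0 ≤ t) (n : ℕ) : 1 ≤ gs t (n + 1) := by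
  rw [gs_succ]
  have : 0 ≤ gs t n := Finset.sum_nonneg fun i _ => pow_nonneg ht i
  nlinarith

theorem bb_nonneg {t : ℝ} (ht : 0 ≤ t) (ht1 : t ≤ 1) (n : ℕ) : 0 ≤ bb t n := by
  unfold bb
  have h1 := gs_pos ht n
  rw [sub_nonneg, div_le_div_iff₀ (by linarith) (by positivity), one_mul]
  unfold gs
  calc t ^ (n + 1) * (n + 1) = ∑ i ∈ range (n + 1), t ^ (n + 1) := by
        rw [Finset.sum_const, Finset.card_range, nsmul_eq_mul]
        push_cast
        ring
    _ ≤ _ := Finset.sum_le_sum fun i hi =>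
        pow_le_pow_of_le_one ht ht1 (Finset.mem_range.1 hi).le

theorem bb_anti {t : ℝ} (ht : 0 ≤ t) (ht1 : t ≤ 1) : Antitone (bb t) := by
  apply antitone_nat_of_succ_le
  intro n
  set r : ℝ := Real.sqrt t with hr
  have hr0 : 0 ≤ r := Real.sqrt_nonneg t
  have hr1 : r ≤ 1 := Real.sqrt_le_one.2 ht1
  have hrt : r ^ 2 = t := Real.sq_sqrt ht
  have h1 := gs_pow hr0 n
  have h2 := gs_pow hr0 (n + 1)
  rw [hrt] at h1 h2
  have g1 := gs_pos ht n
  have g2 := gs_pos ht (n + 1)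
  have e1 := gs_succ t (n + 1)
  push_cast at h2
  have h3 : ((n : ℝ) + 1) * (n + 2) * t ^ (n + 1) ≤ gs t (n + 1) * gs t (n + 1 + 1) := by
    have h4 : ((n + 1 : ℝ) * r ^ n) * (((n : ℝ) + 1 + 1) * r ^ (n + 1)) ≤
        gs t (n + 1) * gs t (n + 1 + 1) :=
      mul_le_mul h1 h2 (by positivity) (by linarith)
    refine le_trans ?_ h4
    have h5 : t ^ (n + 1) ≤ r ^ n * r ^ (n + 1) := by
      rw [← hrt, ← pow_mul, ← pow_add]
      exact pow_le_pow_of_le_one hr0 hr1 (by omega)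
    calc ((n : ℝ) + 1) * (n + 2) * t ^ (n + 1) ≤ ((n : ℝ) + 1) * (n + 2) * (r ^ n * r ^ (n + 1)) :=
          mul_le_mul_of_nonneg_left h5 (by positivity)
      _ = _ := by ring
  have h6 : bb t n - bb t (n + 1) = 1 / (((n : ℝ) + 1) * (n + 2)) -
      t ^ (n + 1) / (gs t (n + 1) * gs t (n + 1 + 1)) := by
    unfold bb
    have g1' : gs t (n + 1) ≠ 0 := by linarith
    have g2' : gs t (n + 1 + 1) ≠ 0 := by linarith
    have e2 : t ^ (n + 1) / gs t (n + 1) - t ^ (n + 1 + 1) / gs t (n + 1 + 1) =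
        t ^ (n + 1) / (gs t (n + 1) * gs t (n + 1 + 1)) := by
      rw [div_sub_div _ _ g1' g2']
      congr 1
      rw [e1]
      ring
    have e3 : (1 : ℝ) / (n + 1) - 1 / (((n + 1 : ℕ) : ℝ) + 1) = 1 / (((n : ℝ) + 1) * (n + 2)) := by
      push_cast
      field_simp
      ring
    rw [← e2, ← e3]
    ring
  have h7 : t ^ (n + 1) / (gs t (n + 1) * gs t (n + 1 + 1)) ≤
      1 / (((n : ℝ) + 1) * (n + 2)) := by
    rw [div_le_div_iff₀ (by positivity) (by positivity), one_mul]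
    linarith
  linarith

end Pool.Agent.EXC
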