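import Pool.Agent.Lib_helper15.EXC.DefsG
import Pool.Agent.Lib_helper15.EXC.XG
import Pool.Agent.Lib_helper31.LG.Defs
import Pool.Agent.Lib_helper53.LM.Defs

/-!
# EXC, part G: definitions of the instance
-/

set_option autoImplicit false

namespace Pool.Agent.EXC

open Finset Complex Metric Filter MeasureTheory
open Pool.Agent.LSP (MX)
open Pool.Agent.LK (PQ)
open Pool.Agent.LE
open scoped Topology

/-- the coefficients of `ζ(s) L(s, χ)` -/
noncomputable def rr {q : ℕ} (χ : DirichletCharacter ℂ q) (k : ℕ) : ℝ := ∑ d ∈ k.divisors, vr χ d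

variable {q : ℕ} [NeZero q]

/-- the regular part of the integrand of the quadratic form -/
noncomputable def Hf (χ : DirichletCharacter ℂ q) (g : ℂ → ℂ) (P : Measure (ℕ → ℝ)) (I : Finset ℕ)
    (K : ℕ) (B : ℕ → ℝ) (w s z : ℂ) : ℂ :=
  g (w + s) ^ 2 * g (w + z) ^ 2 * (Complex.Gamma (1 + s) * Complex.Gamma (1 + z)) *
    ((((q / (2 * Real.pi) : ℝ) : ℂ) ^ (s + z)) * (((4 * Real.pi ^ 2 : ℝ) : ℂ) ^ (-w))) *
    (zq1 q (1 + s + z) / zq q (2 + 2 * w + s + z)) * EW P I (w2 χ w s z) (MX K B)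

/-- the value at the origin -/
noncomputable def hf0 (q : ℕ) (g₀ F₂ : ℝ) : ℝ :=
  g₀ ^ 4 * ((q.totient : ℝ) / q / ‖zq q 2‖) * F₂

/-- the regular part of the integrand of the linear functional -/
noncomputable def Hl (χ : DirichletCharacter ℂ q) (g : ℂ → ℂ) (P : Measure (ℕ → ℝ)) (I : Finset ℕ)
    (K : ℕ) (B : ℕ → ℝ) (z : ℂ) : ℂ :=
  g z * Complex.Gamma (1 + z) * (((q / (2 * Real.pi) : ℝ) : ℂ) ^ z) * EW P I (w1 χ z) (MX K B)

end Pool.Agent.EXC
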