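import Pool.Agent.Lib_helper15.EXC.DefsH

/-!
# EXC: the data of an exceptional zero
-/

set_option autoImplicit false

namespace Pool.Agent.EXC

open Finset Complex Metric Filter MeasureTheory

/-- `L(1 + w, χ) = (w + 1 - β) g(w)`, `g(0) = g₀`, `|g| ≤ 2 g₀` near `0` -/
structure GFun {q : ℕ} [NeZero q] (χ : DirichletCharacter ℂ q) (β c : ℝ) (g : ℂ → ℂ) (g₀ : ℝ) :
    Prop where
  diff : Differentiable ℂ g
  ge : 1 / 8 ≤ g₀
  zero : g 0 = (g₀ : ℂ)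
  fac : ∀ w : ℂ, DirichletCharacter.LFunction χ (1 + w) = (w + (1 - β : ℝ)) * g w
  bdd : ∀ w : ℂ, ‖w‖ ≤ c / Real.log q → ‖g w‖ ≤ 2 * g₀

end Pool.Agent.EXC
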