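import Pool.Agent.Lib_helper41.LSP25.V1

/-!
# EXC, part X: the L-function of an exceptional character near `1`

Block XA: `L(s, χ) = (s - β) g(s)` with `|g'/g| ≤ C log q` in a disc of radius `c / log q`.
-/

set_option autoImplicit false

namespace Pool.Agent.EXC

open Finset Complex Metric Filter
open Pool.Agent.GA
open scoped ArithmeticFunction.vonMangoldt Topology

/-- the values of a real character are real -/
theorem xa_val {q : ℕ} {χ : DirichletCharacter ℂ q} (h2 : χ ^ 2 = 1) (n : ℕ) :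
    (χ (n : ZMod q)).im = 0 := by
  by_cases h : IsUnit (n : ZMod q)
  · rcases z1_real h2 h with h | h <;> rw [h] <;> simp
  · rw [MulChar.map_nonunit χ h]
    simp

theorem xa_real {q : ℕ} [NeZero q] {χ : DirichletCharacter ℂ q} (h2 : χ ^ 2 = 1) {σ : ℝ}
    (hσ : 0 < σ) : (Gj χ 0 (1 + σ)).im = 0 := by
  have hs : 1 < (1 + σ + ((0 : ℝ) : ℂ) * I : ℂ).re := by simp [hσ]
  have h1 := Gj_summable χ 0 hs
  unfold LSeriesSummable at h1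
  have h3 : ∀ n, LSeries.term (fun n => ((Λ n : ℝ) : ℂ) * χ (n : ZMod q) *
      (((Real.log n) ^ 0 : ℝ) : ℂ)) (1 + σ + ((0 : ℝ) : ℂ) * I) n =
      (z1_w σ n : ℂ) * z1_z χ 0 n := z1_term χ σ 0
  have h4 : ∀ n, ((z1_w σ n : ℂ) * z1_z χ 0 n).im = 0 := fun n => by
    rw [Complex.im_ofReal_mul, z1_zero_t, xa_val h2, mul_zero]
  have h5 : HasSum (fun n => ((z1_w σ n : ℂ) * z1_z χ 0 n).im)
      (∑' n, (z1_w σ n : ℂ) * z1_z χ 0 n).im :=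
    Complex.hasSum_im (h1.congr fun n => h3 n).hasSum
  simp only [h4] at h5
  have h6 := h5.unique hasSum_zero
  rw [← z1_c0]
  unfold Gj LSeries
  rw [tsum_congr h3]
  exact h6

/-- the zeros different from `β` -/
theorem xa_zeros : ∃ C₃ : ℝ, 2 ≤ C₃ ∧ ∀ a : ℝ, 0 < a → 32 * a * C₃ ≤ 1 →
    ∀ (q : ℕ) [NeZero q] (χ : DirichletCharacter ℂ q), χ ≠ 1 → χ ^ 2 = 1 → ∀ ℒ : ℝ, 1 ≤ ℒ →
    lt q 0 ≤ ℒ → Real.exp (-ℒ) ≤ a / ℒ → ∀ β : ℝ, LF χ (β : ℂ) = 0 → (1 - β) * ℒ ≤ a ^ 2 →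
    mlt (LF χ) (β : ℂ) = 1 ∧
    (∀ ρ ∈ (zb (LF χ) (1 + (a / ℒ : ℝ)) (1 / 4)).erase (β : ℂ),
      4 * (a / ℒ) ≤ ‖(1 + (a / ℒ : ℝ) - ρ : ℂ)‖) ∧
    ∑ ρ ∈ (zb (LF χ) (1 + (a / ℒ : ℝ)) (1 / 4)).erase (β : ℂ),
      mlt (LF χ) ρ / ‖(1 + (a / ℒ : ℝ) - ρ : ℂ)‖ ^ 2 ≤ C₃ * ℒ / (a / ℒ) ∧
    |(Gj χ 0 (1 + (a / ℒ : ℝ))).re + 1 / (a / ℒ + (1 - β))| ≤ C₃ * ℒ := by
  obtain ⟨C₁, hC₁, hP⟩ := principal_upper
  obtain ⟨C₂, hC₂, hN⟩ := v1h5_upper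
  refine ⟨C₁ + C₂ + 1, by linarith, fun a ha haC q _ χ hχ hχ2 ℒ hℒ1 hlt hexp β hβ hβℒ => ?_⟩
  set C₃ : ℝ := C₁ + C₂ + 1 with hC₃
  set σ : ℝ := a / ℒ with hσ
  have hℒ0 : 0 < ℒ := by linarith
  have hσ0 : 0 < σ := by positivity
  have ha1 : a ≤ 1 / 96 := by nlinarith
  have hσa : σ ≤ a := by
    rw [hσ, div_le_iff₀ hℒ0]
    nlinarith
  have hσ1 : σ ≤ 1 / 16 := by linarith
  have hβ1 : β < 1 := by
    have := z3_zero_re hχ hβ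
    simpa using this
  set δ : ℝ := 1 - β with hδ
  have hδ0 : 0 < δ := by linarith
  have hδσ : δ ≤ a * σ := by
    rw [hσ, ← mul_div_assoc, le_div_iff₀ hℒ0]
    nlinarith
  have hσℒ : σ * ℒ = a := by rw [hσ]; field_simp
  have h1 := hP q 0 σ ℒ hlt hℒ1 hexp hσ1
  have h0 := pos_two hχ2 hσ0
  have hd := LF_diff hχ
  have h02 : LF χ 2 ≠ 0 := LF_ne_zero hχ (by norm_num)
  have hT : ∀ ρ ∈ zb (LF χ) (1 + (σ : ℂ)) (1 / 4), LF χ ρ = 0 ∧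
      ‖(1 + σ + ((0 : ℝ) : ℂ) * I - ρ : ℂ)‖ ≤ 1 / 4 := by
    intro ρ hρ
    obtain ⟨h3, h4⟩ := (mem_zb hd h02 _ _ _).1 hρ
    refine ⟨h3, ?_⟩
    rw [z1_c0]
    rwa [mem_closedBall, dist_comm, dist_eq_norm] at h4
  have h2 := hN q χ hχ 0 σ ℒ hlt hexp hσ1 _ hT
  rw [z1_c0] at h1 h2
  have e2 : σ / (σ ^ 2 + 0 ^ 2) = 1 / σ := by field_simp; ring
  rw [e2] at h1
  have hβT : (β : ℂ) ∈ zb (LF χ) (1 + (σ : ℂ)) (1 / 4) := by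
    rw [mem_zb hd h02]
    refine ⟨hβ, ?_⟩
    rw [mem_closedBall, dist_comm, dist_eq_norm]
    have e : (1 + σ - (β : ℂ) : ℂ) = ((σ + δ : ℝ) : ℂ) := by
      rw [hδ]; push_cast; ring
    rw [e, Complex.norm_real, Real.norm_of_nonneg (by linarith)]
    nlinarith
  have hβre : (1 / (1 + σ - (β : ℂ) : ℂ)).re = 1 / (σ + δ) := by
    have e : (1 + σ - (β : ℂ) : ℂ) = ((σ + δ : ℝ) : ℂ) := by
      rw [hδ]; push_cast; ring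
    rw [e, z3_inv hσ0 hδ0]
  rw [← Finset.add_sum_erase _ _ hβT, hβre] at h2
  have hmβ := one_le_mlt hd h02 hβ
  have hre : ∀ ρ ∈ (zb (LF χ) (1 + (σ : ℂ)) (1 / 4)).erase (β : ℂ),
      1 ≤ mlt (LF χ) ρ ∧ 0 < ‖(1 + σ - ρ : ℂ)‖ ∧
      σ / ‖(1 + σ - ρ : ℂ)‖ ^ 2 ≤ (1 / (1 + σ - ρ : ℂ)).re := by
    intro ρ hρ
    have hρ' := Finset.mem_of_mem_erase hρ
    have h3 := (hT ρ hρ').1
    have h4 := z3_zero_re hχ h3
    have h5 : (1 + σ - ρ : ℂ).re = 1 + σ - ρ.re := by simp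
    have h6 : 0 < ‖(1 + σ - ρ : ℂ)‖ := by
      rw [norm_pos_iff]
      intro h
      rw [h, Complex.zero_re] at h5
      linarith
    refine ⟨one_le_mlt hd h02 h3, h6, ?_⟩
    rw [one_div, Complex.inv_re, Complex.normSq_eq_norm_sq, h5]
    exact div_le_div_of_nonneg_right (by linarith) (by positivity)
  have hsum0 : ∀ ρ ∈ (zb (LF χ) (1 + (σ : ℂ)) (1 / 4)).erase (β : ℂ),
      0 ≤ mlt (LF χ) ρ * (1 / (1 + σ - ρ : ℂ)).re := by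
    intro ρ hρ
    obtain ⟨h3, h4, h5⟩ := hre ρ hρ
    have h6 : 0 ≤ σ / ‖(1 + σ - ρ : ℂ)‖ ^ 2 := by positivity
    exact mul_nonneg (by linarith) (by linarith)
  set S : ℝ := ∑ ρ ∈ (zb (LF χ) (1 + (σ : ℂ)) (1 / 4)).erase (β : ℂ),
    mlt (LF χ) ρ * (1 / (1 + σ - ρ : ℂ)).re with hS
  have hS0 : 0 ≤ S := Finset.sum_nonneg hsum0
  -- the term of `β`
  have hinv : 1 / σ - ℒ ≤ 1 / (σ + δ) := by
    have h3 : 1 / σ - 1 / (σ + δ) = δ / (σ * (σ + δ)) := by field_simp; ring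
    have h4 : δ / (σ * (σ + δ)) ≤ ℒ := by
      rw [div_le_iff₀ (by positivity)]
      calc δ ≤ a * σ := hδσ
        _ = ℒ * (σ * σ) := by rw [← hσℒ]; ring
        _ ≤ ℒ * (σ * (σ + δ)) := by
            apply mul_le_mul_of_nonneg_left _ hℒ0.le
            apply mul_le_mul_of_nonneg_left _ hσ0.le
            linarith
    linarith
  have hpos : 0 < 1 / (σ + δ) := by positivity
  have hinv2 : 1 / (σ + δ) ≤ 1 / σ := one_div_le_one_div_of_le hσ0 (by linarith)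
  have hkey : (mlt (LF χ) (β : ℂ) - 1) * (1 / (σ + δ)) + S ≤ C₃ * ℒ := by
    rw [hC₃]
    nlinarith
  have hm1 : mlt (LF χ) (β : ℂ) = 1 := by
    have h3 : ¬ 2 ≤ mlt (LF χ) (β : ℂ) := by
      intro h3
      have h4 : 1 / (σ + δ) ≤ C₃ * ℒ := by nlinarith
      have h5 : 1 / σ ≤ (C₃ + 1) * ℒ := by linarith
      rw [div_le_iff₀ hσ0] at h5
      have h6 : (C₃ + 1) * ℒ * σ = (C₃ + 1) * a := by rw [← hσℒ]; ring
      nlinarith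
    unfold mlt at hmβ h3 ⊢
    have h7 : 1 ≤ analyticOrderNatAt (LF χ) (β : ℂ) := by exact_mod_cast hmβ
    have h8 : ¬ 2 ≤ analyticOrderNatAt (LF χ) (β : ℂ) := by
      intro h
      exact h3 (by exact_mod_cast h)
    have h9 : analyticOrderNatAt (LF χ) (β : ℂ) = 1 := by omega
    rw [h9, Nat.cast_one]
  rw [hm1, sub_self, zero_mul, zero_add] at hkey
  refine ⟨hm1, ?_, ?_, ?_⟩
  · intro ρ hρ
    obtain ⟨h3, h4, h5⟩ := hre ρ hρ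
    have h6 : mlt (LF χ) ρ * (1 / (1 + σ - ρ : ℂ)).re ≤ S :=
      Finset.single_le_sum (f := fun ρ => mlt (LF χ) ρ * (1 / (1 + σ - ρ : ℂ)).re) hsum0 hρ
    have h7 : 0 ≤ σ / ‖(1 + σ - ρ : ℂ)‖ ^ 2 := by positivity
    have h8 : σ / ‖(1 + σ - ρ : ℂ)‖ ^ 2 ≤ C₃ * ℒ := by nlinarith
    rw [div_le_iff₀ (by positivity)] at h8
    by_contra hcon
    push Not at hcon
    have h9 : ‖(1 + σ - ρ : ℂ)‖ ^ 2 ≤ (4 * σ) ^ 2 := pow_le_pow_left₀ h4.le hcon.le 2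
    have h10 : C₃ * ℒ * ‖(1 + σ - ρ : ℂ)‖ ^ 2 ≤ C₃ * ℒ * (4 * σ) ^ 2 :=
      mul_le_mul_of_nonneg_left h9 (by positivity)
    have h11 : C₃ * ℒ * (4 * σ) ^ 2 = 16 * (C₃ * a) * σ := by
      rw [← hσℒ]; ring
    nlinarith
  · have h3 : ∑ ρ ∈ (zb (LF χ) (1 + (σ : ℂ)) (1 / 4)).erase (β : ℂ),
        mlt (LF χ) ρ / ‖(1 + σ - ρ : ℂ)‖ ^ 2 ≤ S / σ := by
      rw [hS, Finset.sum_div]
      refine Finset.sum_le_sum fun ρ hρ => ?_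
      obtain ⟨h4, h5, h6⟩ := hre ρ hρ
      rw [le_div_iff₀ hσ0]
      calc mlt (LF χ) ρ / ‖(1 + σ - ρ : ℂ)‖ ^ 2 * σ
          = mlt (LF χ) ρ * (σ / ‖(1 + σ - ρ : ℂ)‖ ^ 2) := by ring
        _ ≤ _ := mul_le_mul_of_nonneg_left h6 (by linarith)
    exact h3.trans (div_le_div_of_nonneg_right hkey hσ0.le)
  · rw [abs_le]
    constructor
    · rw [hC₃]
      nlinarith
    · rw [hm1, one_mul] at h2
      rw [hC₃]
      nlinarith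

end Pool.Agent.EXC
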