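import Pool.Agent.Lib_helper15.EXC.XA

/-!
# EXC, part X: the L-function of an exceptional character near `1`

Block XB: `L(s, χ) = (s - β) g(s)` with `|g'/g| ≤ C ℒ` in a disc of radius `2 a / ℒ`.
-/

set_option autoImplicit false

namespace Pool.Agent.EXC

open Finset Complex Metric Filter
open Pool.Agent.GA
open scoped ArithmeticFunction.vonMangoldt Topology

theorem xb_main : ∃ C : ℝ, 1 ≤ C ∧ ∃ a₀ : ℝ, 0 < a₀ ∧ a₀ ≤ 1 / 64 ∧ ∀ a : ℝ, 0 < a → a ≤ a₀ →
    ∀ (q : ℕ) [NeZero q] (χ : DirichletCharacter ℂ q), χ ≠ 1 → χ ^ 2 = 1 → ∀ ℒ : ℝ, 1 ≤ ℒ →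
    lt q 0 ≤ ℒ → Real.exp (-ℒ) ≤ a / ℒ → ∀ β : ℝ, LF χ (β : ℂ) = 0 → (1 - β) * ℒ ≤ a ^ 2 →
    ∃ g : ℂ → ℂ, Differentiable ℂ g ∧ (∀ z, LF χ z = (z - β) * g z) ∧
      ∀ z ∈ closedBall (1 + (a / ℒ : ℝ) : ℂ) (2 * (a / ℒ)), g z ≠ 0 ∧
        ‖logDeriv g z‖ ≤ C * ℒ := by
  obtain ⟨C₃, hC₃, hzero⟩ := xa_zeros
  obtain ⟨C₂, hC₂, hexpa⟩ := local_expansion
  refine ⟨2 * (4 * C₃ + C₂), by linarith, 1 / (32 * C₃), by positivity, ?_,
    fun a ha haa q _ χ hχ hχ2 ℒ hℒ1 hlt hexp β hβ hβℒ => ?_⟩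
  · rw [div_le_div_iff₀ (by positivity) (by norm_num)]
    linarith
  have haC : 32 * a * C₃ ≤ 1 := by
    rw [le_div_iff₀ (by positivity)] at haa
    linarith
  obtain ⟨hm1, hfar, hsum, hG0⟩ := hzero a ha haC q χ hχ hχ2 ℒ hℒ1 hlt hexp β hβ hβℒ
  set σ : ℝ := a / ℒ with hσ
  have hℒ0 : 0 < ℒ := by linarith
  have hσ0 : 0 < σ := by positivity
  have ha1 : a ≤ 1 / 64 := by nlinarith
  have hσa : σ ≤ a := by
    rw [hσ, div_le_iff₀ hℒ0]
    nlinarith
  have hσ1 : σ ≤ 1 / 64 := by linarith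
  have hd := LF_diff hχ
  have h02 : LF χ 2 ≠ 0 := LF_ne_zero hχ (by norm_num)
  have hβ1 : β < 1 := by
    have := z3_zero_re hχ hβ
    simpa using this
  have hord : analyticOrderNatAt (LF χ) (β : ℂ) = 1 := by
    unfold mlt at hm1
    exact_mod_cast hm1
  obtain ⟨g, hg, hgβ, hfac⟩ := div_one_zero hd h02 (β : ℂ)
  rw [hord] at hfac
  simp only [pow_one] at hfac
  refine ⟨g, hg, hfac, ?_⟩
  set c : ℂ := 1 + (σ : ℂ) with hc
  have hcr : c.re = 1 + σ := by simp [hc]
  -- no zeros of `g` in the ball of radius `4 σ`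
  have hne : ∀ z ∈ ball c (4 * σ), g z ≠ 0 := by
    intro z hz hgz
    have h1 : LF χ z = 0 := by rw [hfac, hgz, mul_zero]
    have h2 : z ≠ (β : ℂ) := by
      rintro rfl
      exact hgβ hgz
    rw [mem_ball, dist_comm, dist_eq_norm] at hz
    have h3 : z ∈ (zb (LF χ) c (1 / 4)).erase (β : ℂ) := by
      rw [Finset.mem_erase]
      refine ⟨h2, (mem_zb hd h02 _ _ _).2 ⟨h1, ?_⟩⟩
      rw [mem_closedBall, dist_comm, dist_eq_norm]
      linarith
    have h4 := hfar z h3
    linarith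
  have hdl : DifferentiableOn ℂ (logDeriv g) (ball c (4 * σ)) := by
    intro z hz
    have hA : AnalyticAt ℂ g z := hg.analyticAt z
    have : AnalyticAt ℂ (logDeriv g) z := by
      unfold logDeriv
      exact hA.deriv.div hA (hne z hz)
    exact this.differentiableAt.differentiableWithinAt
  -- the Taylor coefficients
  have hcβ : c - β ≠ 0 := by
    intro h
    have := congrArg Complex.re h
    rw [Complex.sub_re, hcr, Complex.ofReal_re, Complex.zero_re] at this
    linarith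
  have hcball : c ∈ ball c (4 * σ) := mem_ball_self (by positivity)
  have hcoef : ∀ j : ℕ, iteratedDeriv j (logDeriv g) c =
      -((-1) ^ j * (Gj χ j c + j.factorial / (c - β) ^ (j + 1))) := by
    intro j
    have hgc := hne c hcball
    have hLc : LF χ c ≠ 0 := by
      rw [hfac]
      exact mul_ne_zero hcβ hgc
    have hev : logDeriv (LF χ) =ᶠ[𝓝 c] fun s => (s - β)⁻¹ + logDeriv g s := by
      have h1 : ∀ᶠ s : ℂ in 𝓝 c, s - (β : ℂ) ≠ 0 :=
        ContinuousAt.eventually_ne (by fun_prop) hcβ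
      have h2 : ∀ᶠ s in 𝓝 c, g s ≠ 0 := hg.continuous.continuousAt.eventually_ne hgc
      filter_upwards [h1, h2] with s hs1 hs2
      have h3 : LF χ = fun w => (w - β) * g w := funext hfac
      rw [h3, logDeriv_mul (f := fun w : ℂ => w - β) (g := g) s hs1 hs2 (by fun_prop)
        (hg s)]
      congr 1
      rw [logDeriv_apply]
      simp
    have h4 := hev.iteratedDeriv_eq j
    have han : ContDiffAt ℂ j (fun s : ℂ => (s - β)⁻¹) c := by
      refine ContDiffAt.inv ?_ hcβ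
      fun_prop
    have han2 : ContDiffAt ℂ j (logDeriv g) c := by
      have hA : AnalyticAt ℂ g c := hg.analyticAt c
      have : AnalyticAt ℂ (logDeriv g) c := by
        unfold logDeriv
        exact hA.deriv.div hA hgc
      exact this.contDiffAt
    rw [iteratedDeriv_fun_add han han2, iterD_inv_sub, LF_deriv _ j (by rw [hcr]; linarith)] at h4
    linear_combination -h4
  -- bounds for the coefficients
  have hb : ∀ j : ℕ, ‖((j.factorial : ℂ))⁻¹ * iteratedDeriv j (logDeriv g) c‖ * (2 * σ) ^ j ≤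
      (4 * C₃ + C₂) * ℒ * (1 / 2) ^ j := by
    intro j
    have hj0 : (j.factorial : ℂ) ≠ 0 := by exact_mod_cast Nat.factorial_ne_zero j
    have e1 : ((j.factorial : ℂ))⁻¹ * iteratedDeriv j (logDeriv g) c =
        -((-1) ^ j * (Gj χ j c / j.factorial + 1 / (c - β) ^ (j + 1))) := by
      rw [hcoef]
      field_simp
    have e2 : ‖((j.factorial : ℂ))⁻¹ * iteratedDeriv j (logDeriv g) c‖ =
        ‖Gj χ j c / j.factorial + 1 / (c - β) ^ (j + 1)‖ := by
      rw [e1, norm_neg, norm_mul, norm_pow, norm_neg, norm_one, one_pow, one_mul]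
    rw [e2]
    rcases Nat.eq_zero_or_pos j with rfl | hj
    · -- the constant term is real
      simp only [Nat.factorial_zero, Nat.cast_one, div_one, zero_add, pow_one, pow_zero,
        mul_one]
      have e3 : Gj χ 0 c + 1 / (c - β) =
          (((Gj χ 0 c).re + 1 / (σ + (1 - β)) : ℝ) : ℂ) := by
        have e4 : Gj χ 0 c = (((Gj χ 0 c).re : ℝ) : ℂ) := by
          apply Complex.ext
          · simp
          · rw [Complex.ofReal_im, hc]
            exact xa_real hχ2 hσ0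
        rw [Complex.ofReal_add, ← e4]
        congr 1
        rw [hc]
        push_cast
        congr 1
        ring
      rw [e3, Complex.norm_real, Real.norm_eq_abs]
      refine hG0.trans ?_
      apply mul_le_mul_of_nonneg_right _ hℒ0.le
      linarith
    · have h1 := hexpa q χ hχ 0 σ ℒ hlt hexp (by linarith) j
      rw [z1_c0, ← hc] at h1
      have hβT : (β : ℂ) ∈ zb (LF χ) c (1 / 4) := by
        rw [mem_zb hd h02]
        refine ⟨hβ, ?_⟩
        rw [mem_closedBall, dist_comm, dist_eq_norm]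
        have e : (c - (β : ℂ) : ℂ) = ((σ + (1 - β) : ℝ) : ℂ) := by
          rw [hc]; push_cast; ring
        rw [e, Complex.norm_real, Real.norm_of_nonneg (by linarith)]
        have h5 : 1 - β ≤ a ^ 2 := by nlinarith
        nlinarith
      rw [← Finset.add_sum_erase _ _ hβT, hm1] at h1
      have h2 : ‖∑ ρ ∈ (zb (LF χ) c (1 / 4)).erase (β : ℂ),
          (mlt (LF χ) ρ : ℂ) / (c - ρ) ^ (j + 1)‖ ≤
          C₃ * ℒ / σ * ((4 * σ) ^ (j - 1))⁻¹ := by
        refine (norm_sum_le _ _).trans ?_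
        calc ∑ ρ ∈ (zb (LF χ) c (1 / 4)).erase (β : ℂ),
              ‖(mlt (LF χ) ρ : ℂ) / (c - ρ) ^ (j + 1)‖
            ≤ ∑ ρ ∈ (zb (LF χ) c (1 / 4)).erase (β : ℂ),
              mlt (LF χ) ρ / ‖c - ρ‖ ^ 2 * ((4 * σ) ^ (j - 1))⁻¹ := by
              refine Finset.sum_le_sum fun ρ hρ => ?_
              have h3 := hfar ρ hρ
              have h4 : 0 < ‖c - ρ‖ := lt_of_lt_of_le (by positivity) h3
              rw [norm_div, norm_pow, Complex.norm_real, Real.norm_of_nonneg (mlt_nonneg _ _)]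
              have h5 : ‖c - ρ‖ ^ (j + 1) = ‖c - ρ‖ ^ 2 * ‖c - ρ‖ ^ (j - 1) := by
                rw [← pow_add]
                congr 1
                omega
              rw [h5, ← div_div, div_eq_mul_inv (mlt (LF χ) ρ / ‖c - ρ‖ ^ 2)]
              apply mul_le_mul_of_nonneg_left _ (div_nonneg (mlt_nonneg _ _) (by positivity))
              apply inv_anti₀ (by positivity)
              exact pow_le_pow_left₀ (by positivity) h3 _
          _ = (∑ ρ ∈ (zb (LF χ) c (1 / 4)).erase (β : ℂ),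
              mlt (LF χ) ρ / ‖c - ρ‖ ^ 2) * ((4 * σ) ^ (j - 1))⁻¹ := by
              rw [Finset.sum_mul]
          _ ≤ _ := mul_le_mul_of_nonneg_right hsum (by positivity)
      have h3 : ‖Gj χ j c / j.factorial + 1 / (c - β) ^ (j + 1)‖ ≤
          C₂ * ℒ * 16 ^ j + C₃ * ℒ / σ * ((4 * σ) ^ (j - 1))⁻¹ := by
        have e3 : Gj χ j c / j.factorial + 1 / (c - β) ^ (j + 1) =
            (Gj χ j c / j.factorial + (((1 : ℝ) : ℂ) / (c - β) ^ (j + 1) +
              ∑ ρ ∈ (zb (LF χ) c (1 / 4)).erase (β : ℂ),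
                (mlt (LF χ) ρ : ℂ) / (c - ρ) ^ (j + 1))) -
            ∑ ρ ∈ (zb (LF χ) c (1 / 4)).erase (β : ℂ),
                (mlt (LF χ) ρ : ℂ) / (c - ρ) ^ (j + 1) := by
          push_cast
          ring
        rw [e3]
        exact (norm_sub_le _ _).trans (add_le_add h1 h2)
      calc ‖Gj χ j c / j.factorial + 1 / (c - β) ^ (j + 1)‖ * (2 * σ) ^ j
          ≤ (C₂ * ℒ * 16 ^ j + C₃ * ℒ / σ * ((4 * σ) ^ (j - 1))⁻¹) * (2 * σ) ^ j :=
            mul_le_mul_of_nonneg_right h3 (by positivity)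
        _ = C₂ * ℒ * (32 * σ) ^ j + 4 * C₃ * ℒ * (1 / 2) ^ j := by
            have e4 : (2 * σ) ^ j = (4 * σ) * (4 * σ) ^ (j - 1) * (1 / 2) ^ j := by
              rw [← pow_succ', Nat.sub_add_cancel hj, ← mul_pow]
              congr 1
              ring
            have e5 : (32 * σ) ^ j = 16 ^ j * (2 * σ) ^ j := by
              rw [← mul_pow]
              congr 1
              ring
            have e6 : (4 * σ) ^ (j - 1) ≠ 0 := by positivity
            rw [e5, add_mul]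
            congr 1
            · ring
            · rw [e4]
              field_simp
        _ ≤ C₂ * ℒ * (1 / 2) ^ j + 4 * C₃ * ℒ * (1 / 2) ^ j := by
            have : (32 * σ) ^ j ≤ (1 / 2) ^ j :=
              pow_le_pow_left₀ (by positivity) (by linarith) j
            have h6 : C₂ * ℒ * (32 * σ) ^ j ≤ C₂ * ℒ * (1 / 2) ^ j :=
              mul_le_mul_of_nonneg_left this (by positivity)
            linarith
        _ = _ := by ring
  intro z hz
  have hz2 : z ∈ ball c (4 * σ) := by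
    rw [mem_closedBall] at hz
    rw [mem_ball]
    linarith
  refine ⟨hne z hz2, ?_⟩
  have hT := Complex.hasSum_taylorSeries_on_ball hdl hz2
  rw [← hT.tsum_eq]
  have hzn : ‖z - c‖ ≤ 2 * σ := by rwa [mem_closedBall, dist_eq_norm] at hz
  have hbd : ∀ j : ℕ, ‖((j.factorial : ℂ))⁻¹ • (z - c) ^ j • iteratedDeriv j (logDeriv g) c‖ ≤
      (4 * C₃ + C₂) * ℒ * (1 / 2) ^ j := by
    intro j
    refine le_trans (le_of_eq ?_) ((mul_le_mul_of_nonneg_left
      (pow_le_pow_left₀ (norm_nonneg _) hzn j) (norm_nonneg _)).trans (hb j))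
    rw [smul_eq_mul, smul_eq_mul, norm_mul, norm_mul, norm_mul, norm_pow]
    ring
  have hgeo : HasSum (fun j : ℕ => (4 * C₃ + C₂) * ℒ * (1 / 2 : ℝ) ^ j)
      ((4 * C₃ + C₂) * ℒ * 2) := hasSum_geometric_two.mul_left _
  refine (tsum_of_norm_bounded hgeo hbd).trans (le_of_eq ?_)
  ring

end Pool.Agent.EXC
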