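import Pool.Agent.Lib_helper15.EXC.XC

/-!
# EXC, part X: the L-function of an exceptional character near `1`

Block XD: Euler products, `ζ(1+w) L(1+w, χ) = exp ∑ u_p`, upper bound for the tail, theorem X2.
-/

set_option autoImplicit false

namespace Pool.Agent.EXC

open Finset Complex Metric Filter
open Pool.Agent.GA
open scoped ArithmeticFunction.vonMangoldt Topology

/-- the value of a real character as a real number -/
noncomputable def vr {q : ℕ} (χ : DirichletCharacter ℂ q) (n : ℕ) : ℝ := (χ (n : ZMod q)).re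

theorem vr_eq {q : ℕ} {χ : DirichletCharacter ℂ q} (h2 : χ ^ 2 = 1) (n : ℕ) :
    χ (n : ZMod q) = (vr χ n : ℂ) := by
  unfold vr
  apply Complex.ext
  · simp
  · rw [xa_val h2]; simp

theorem vr_cases {q : ℕ} {χ : DirichletCharacter ℂ q} (h2 : χ ^ 2 = 1) (n : ℕ) :
    vr χ n = 1 ∨ vr χ n = 0 ∨ vr χ n = -1 := by
  unfold vr
  by_cases h : IsUnit (n : ZMod q)
  · rcases z1_real h2 h with h | h <;> rw [h] <;> simp
  · rw [MulChar.map_nonunit χ h]
    simp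

/-- `u_p = -log(1 - p^{-s}) - log(1 - χ(p) p^{-s})` -/
noncomputable def uu {q : ℕ} (χ : DirichletCharacter ℂ q) (s : ℝ) (p : ℕ) : ℝ :=
  -Real.log (1 - (p : ℝ) ^ (-s)) - Real.log (1 - vr χ p * (p : ℝ) ^ (-s))

theorem xd_x {p : ℕ} (hp : p.Prime) {s : ℝ} (hs : 1 < s) :
    0 < (p : ℝ) ^ (-s) ∧ (p : ℝ) ^ (-s) ≤ (p : ℝ)⁻¹ ∧ (p : ℝ)⁻¹ ≤ 1 / 2 := by
  have hp0 : (0 : ℝ) < p := by exact_mod_cast hp.pos
  have hp2 : (2 : ℝ) ≤ p := by exact_mod_cast hp.two_le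
  refine ⟨Real.rpow_pos_of_pos hp0 _, ?_, ?_⟩
  · rw [← Real.rpow_neg_one]
    exact Real.rpow_le_rpow_of_exponent_le (by linarith) (by linarith)
  · rw [one_div]
    exact inv_anti₀ (by norm_num) hp2

theorem xd_pos {q : ℕ} {χ : DirichletCharacter ℂ q} (h2 : χ ^ 2 = 1) {p : ℕ} {x : ℝ}
    (hx0 : 0 ≤ x) (hx : x ≤ 1 / 2) : 0 < 1 - x ∧ 0 < 1 - vr χ p * x := by
  refine ⟨by linarith, ?_⟩
  rcases vr_cases h2 p with h | h | h <;> rw [h] <;> linarith

theorem uu_nonneg {q : ℕ} {χ : DirichletCharacter ℂ q} (h2 : χ ^ 2 = 1) {p : ℕ} (hp : p.Prime)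
    {s : ℝ} (hs : 1 < s) : 0 ≤ uu χ s p := by
  obtain ⟨h3, h4, h5⟩ := xd_x hp hs
  obtain ⟨h6, h7⟩ := xd_pos h2 (p := p) h3.le (h4.trans h5)
  unfold uu
  rw [neg_sub_left, ← Real.log_mul h7.ne' h6.ne', neg_nonneg]
  apply Real.log_nonpos (by positivity)
  rcases vr_cases h2 p with h | h | h <;> rw [h] <;> nlinarith

/-- the local factor at `s = 1` -/
noncomputable def lf {q : ℕ} (χ : DirichletCharacter ℂ q) (p : ℕ) : ℝ :=
  (1 - (p : ℝ)⁻¹) * (1 - vr χ p * (p : ℝ)⁻¹)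

theorem lf_pos {q : ℕ} {χ : DirichletCharacter ℂ q} (h2 : χ ^ 2 = 1) {p : ℕ} (hp : p.Prime) :
    0 < lf χ p ∧ lf χ p ≤ 1 := by
  obtain ⟨h3, h4, h5⟩ := xd_x hp (s := 2) (by norm_num)
  have h8 : (0 : ℝ) ≤ (p : ℝ)⁻¹ := by positivity
  obtain ⟨h6, h7⟩ := xd_pos h2 (p := p) h8 h5
  unfold lf
  refine ⟨by positivity, ?_⟩
  rcases vr_cases h2 p with h | h | h <;> rw [h] <;> nlinarith

theorem uu_le {q : ℕ} {χ : DirichletCharacter ℂ q} (h2 : χ ^ 2 = 1) {p : ℕ} (hp : p.Prime)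
    {s : ℝ} (hs : 1 < s) : uu χ s p ≤ -Real.log (lf χ p) := by
  obtain ⟨h3, h4, h5⟩ := xd_x hp hs
  obtain ⟨h6, h7⟩ := xd_pos h2 (p := p) h3.le (h4.trans h5)
  unfold uu
  rw [neg_sub_left, ← Real.log_mul h7.ne' h6.ne']
  apply neg_le_neg
  apply Real.log_le_log (lf_pos h2 hp).1
  unfold lf
  rcases vr_cases h2 p with h | h | h <;> rw [h] <;> nlinarith

theorem uu_tail {q : ℕ} {χ : DirichletCharacter ℂ q} (h2 : χ ^ 2 = 1) {p : ℕ} (hp : p.Prime)
    {s : ℝ} (hs : 1 < s) :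
    uu χ s p ≤ (1 + vr χ p) * (p : ℝ) ^ (-s) + 4 * ((p : ℝ) ^ 2)⁻¹ := by
  obtain ⟨h3, h4, h5⟩ := xd_x hp hs
  set x : ℝ := (p : ℝ) ^ (-s) with hx
  have hx2 : x ≤ 1 / 2 := h4.trans h5
  have hxx : x ^ 2 ≤ ((p : ℝ) ^ 2)⁻¹ := by
    rw [← inv_pow]
    exact pow_le_pow_left₀ h3.le h4 2
  have hl1 : -Real.log (1 - x) ≤ x + 2 * x ^ 2 := by
    have h6 : 0 < 1 - x := by linarith
    have h7 := Real.log_le_sub_one_of_pos (inv_pos.2 h6)
    rw [Real.log_inv] at h7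
    refine h7.trans ?_
    have h8 : (1 - x)⁻¹ ≤ 1 + x + 2 * x ^ 2 := by
      rw [inv_le_iff_one_le_mul₀ h6]
      nlinarith
    linarith
  have hl2 : -Real.log (1 + x) ≤ -x + x ^ 2 := by
    have h6 : 0 < 1 + x := by linarith
    have h7 := Real.log_le_sub_one_of_pos (inv_pos.2 h6)
    rw [Real.log_inv] at h7
    refine h7.trans ?_
    have h8 : (1 + x)⁻¹ ≤ 1 - x + x ^ 2 := by
      rw [inv_le_iff_one_le_mul₀ h6]
      nlinarith
    linarith
  unfold uu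
  rw [← hx]
  rcases vr_cases h2 p with h | h | h <;> rw [h]
  · rw [one_mul]
    nlinarith
  · rw [zero_mul, sub_zero, Real.log_one]
    nlinarith
  · have e : (1 : ℝ) - -1 * x = 1 + x := by ring
    rw [e]
    nlinarith

theorem xd_term {q : ℕ} {χ : DirichletCharacter ℂ q} (h2 : χ ^ 2 = 1) {s : ℝ} (hs : 1 < s)
    (p : Nat.Primes) :
    -Complex.log (1 - χ (p : ℕ) * (p : ℕ) ^ (-(s : ℂ))) =
      ((-Real.log (1 - vr χ p * ((p : ℕ) : ℝ) ^ (-s)) : ℝ) : ℂ) := by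
  have hp0 : (0 : ℝ) < (p : ℕ) := by exact_mod_cast p.2.pos
  obtain ⟨h3, h4, h5⟩ := xd_x p.2 hs
  obtain ⟨h6, h7⟩ := xd_pos h2 (p := p) h3.le (h4.trans h5)
  have h8 : ((p : ℕ) : ℂ) ^ (-(s : ℂ)) = (((p : ℕ) : ℝ) ^ (-s) : ℝ) := by
    rw [Complex.ofReal_cpow hp0.le]
    push_cast
    rfl
  have h9 : (1 : ℂ) - χ (p : ℕ) * (p : ℕ) ^ (-(s : ℂ)) =
      ((1 - vr χ p * ((p : ℕ) : ℝ) ^ (-s) : ℝ) : ℂ) := by
    rw [vr_eq h2, h8]
    push_cast
    ring
  rw [h9, ← Complex.ofReal_log h7.le]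
  push_cast
  rfl

/-- the Euler product -/
theorem xd_euler {q : ℕ} [NeZero q] {χ : DirichletCharacter ℂ q} (h2 : χ ^ 2 = 1) {s : ℝ}
    (hs : 1 < s) : Summable (fun p : Nat.Primes => uu χ s p) ∧
      riemannZeta s * LF χ s = (Real.exp (∑' p : Nat.Primes, uu χ s p) : ℝ) := by
  have hs' : 1 < (s : ℂ).re := by simpa using hs
  have h1 := DirichletCharacter.LSeries_eulerProduct_exp_log χ hs'
  have h3 := riemannZeta_eulerProduct_exp_log hs'
  have s1 := DirichletCharacter.summable_neg_log_one_sub_mul_prime_cpow χ hs'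
  have s2 := DirichletCharacter.summable_neg_log_one_sub_mul_prime_cpow
    (1 : DirichletCharacter ℂ 1) hs'
  have v1 : ∀ p : ℕ, vr (1 : DirichletCharacter ℂ 1) p = 1 := by
    intro p
    unfold vr
    rw [MulChar.one_apply (isUnit_of_subsingleton _), Complex.one_re]
  have o2 : (1 : DirichletCharacter ℂ 1) ^ 2 = 1 := one_pow 2
  simp only [xd_term h2 hs] at h1 s1
  simp only [xd_term o2 hs, v1, one_mul] at s2
  have t3 : ∀ p : Nat.Primes, -Complex.log (1 - ((p : ℕ) : ℂ) ^ (-(s : ℂ))) =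
      ((-Real.log (1 - ((p : ℕ) : ℝ) ^ (-s)) : ℝ) : ℂ) := by
    intro p
    have := xd_term o2 hs p
    rw [v1, one_mul, MulChar.one_apply (isUnit_of_subsingleton _), one_mul] at this
    exact this
  simp only [t3] at h3
  have r1 : Summable (fun p : Nat.Primes => -Real.log (1 - vr χ p * ((p : ℕ) : ℝ) ^ (-s))) :=
    Complex.summable_ofReal.1 s1
  have r2 : Summable (fun p : Nat.Primes => -Real.log (1 - ((p : ℕ) : ℝ) ^ (-s))) :=
    Complex.summable_ofReal.1 s2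
  have e : (fun p : Nat.Primes => uu χ s p) = fun p : Nat.Primes =>
      -Real.log (1 - ((p : ℕ) : ℝ) ^ (-s)) + -Real.log (1 - vr χ p * ((p : ℕ) : ℝ) ^ (-s)) := by
    funext p
    unfold uu
    ring
  rw [e]
  refine ⟨r2.add r1, ?_⟩
  rw [r2.tsum_add r1, Real.exp_add, Complex.ofReal_mul, LF_eq_LS χ hs', ← h1, ← h3,
    ← Complex.ofReal_tsum, ← Complex.ofReal_tsum, Complex.ofReal_exp, Complex.ofReal_exp]

/-- the product of the local factors -/
noncomputable def pz {q : ℕ} (χ : DirichletCharacter ℂ q) (z : ℕ) : ℝ :=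
  ∏ p ∈ (Icc 1 z).filter Nat.Prime, lf χ p

theorem pz_pos {q : ℕ} {χ : DirichletCharacter ℂ q} (h2 : χ ^ 2 = 1) (z : ℕ) : 0 < pz χ z :=
  Finset.prod_pos fun _ hp => (lf_pos h2 (Finset.mem_filter.1 hp).2).1

/-- primes larger than `z` -/
theorem xd_large {q : ℕ} [NeZero q] {χ : DirichletCharacter ℂ q} (h2 : χ ^ 2 = 1) {z : ℕ}
    (hz : q ≤ z) {w : ℝ} (hw : 0 < w) (S : Finset ℕ)
    (hS : ∀ p ∈ S, p.Prime ∧ z < p) :
    ∑ p ∈ S, (1 + vr χ p) * (p : ℝ) ^ (-(1 + w)) * Real.log p ≤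
      (Gj (1 : DirichletCharacter ℂ q) 0 (1 + w)).re + (Gj χ 0 (1 + w)).re := by
  have h1 := z1_Gj (1 : DirichletCharacter ℂ q) 0 hw
  have h3 := z1_Gj χ 0 hw
  rw [z1_c0] at h1 h3
  rw [h1.2, h3.2, ← h1.1.tsum_add h3.1]
  have hnn : ∀ n, 0 ≤ z1_w w n * (z1_z (1 : DirichletCharacter ℂ q) 0 n).re +
      z1_w w n * (z1_z χ 0 n).re := by
    intro n
    have hw' := z1_w_nonneg w n
    rw [← mul_add]
    apply mul_nonneg hw'
    rw [z1_zero_t, z1_zero_t]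
    by_cases hu : IsUnit (n : ZMod q)
    · rw [MulChar.one_apply hu]
      rcases z1_real h2 hu with h | h <;> rw [h] <;> norm_num
    · rw [MulChar.map_nonunit _ hu, MulChar.map_nonunit _ hu]
      simp
  refine le_trans (le_of_eq ?_) ((h1.1.add h3.1).sum_le_tsum S fun n _ => hnn n)
  refine Finset.sum_congr rfl fun p hp => ?_
  obtain ⟨hp1, hp2⟩ := hS p hp
  have hcop : Nat.Coprime p q := by
    rw [hp1.coprime_iff_not_dvd]
    intro hdvd
    have := Nat.le_of_dvd (NeZero.pos q) hdvd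
    omega
  have hu : IsUnit (p : ZMod q) := (ZMod.isUnit_iff_coprime p q).2 hcop
  rw [z1_zero_t, z1_zero_t, MulChar.one_apply hu, Complex.one_re]
  unfold z1_w vr
  rw [ArithmeticFunction.vonMangoldt_apply_prime hp1]
  ring

/-- upper bound for `∑ u_p` -/
theorem xd_sum {q : ℕ} [NeZero q] {χ : DirichletCharacter ℂ q} (h2 : χ ^ 2 = 1) {z : ℕ}
    (hz : q ≤ z) (hz2 : 2 ≤ z) {w : ℝ} (hw : 0 < w) :
    ∑' p : Nat.Primes, uu χ (1 + w) p ≤ -Real.log (pz χ z) +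
      ((Gj (1 : DirichletCharacter ℂ q) 0 (1 + w)).re + (Gj χ 0 (1 + w)).re) / Real.log z +
      4 / z := by
  have hs : 1 < 1 + w := by linarith
  have hz0 : (0 : ℝ) < z := by exact_mod_cast (by omega : 0 < z)
  have hlz : 0 < Real.log z := Real.log_pos (by exact_mod_cast (by omega : 1 < z))
  refine (xd_euler h2 hs).1.tsum_le_of_sum_le fun S => ?_
  rw [← Finset.sum_filter_add_sum_filter_not S (fun p : Nat.Primes => (p : ℕ) ≤ z)]
  have hA : ∑ p ∈ S.filter (fun p : Nat.Primes => (p : ℕ) ≤ z), uu χ (1 + w) p ≤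
      -Real.log (pz χ z) := by
    have e1 : -Real.log (pz χ z) = ∑ p ∈ (Icc 1 z).filter Nat.Prime, -Real.log (lf χ p) := by
      unfold pz
      rw [Real.log_prod fun p hp => (lf_pos h2 (Finset.mem_filter.1 hp).2).1.ne',
        Finset.sum_neg_distrib]
    rw [e1]
    calc ∑ p ∈ S.filter (fun p : Nat.Primes => (p : ℕ) ≤ z), uu χ (1 + w) p
        ≤ ∑ p ∈ S.filter (fun p : Nat.Primes => (p : ℕ) ≤ z), -Real.log (lf χ p) :=
          Finset.sum_le_sum fun p _ => uu_le h2 p.2 hs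
      _ = ∑ n ∈ (S.filter (fun p : Nat.Primes => (p : ℕ) ≤ z)).map
            ⟨fun p : Nat.Primes => (p : ℕ), Subtype.val_injective⟩, -Real.log (lf χ n) := by
          rw [Finset.sum_map]
          rfl
      _ ≤ _ := by
          apply Finset.sum_le_sum_of_subset_of_nonneg
          · intro n hn
            obtain ⟨p, hp, rfl⟩ := Finset.mem_map.1 hn
            have h3 := (Finset.mem_filter.1 hp).2
            exact Finset.mem_filter.2 ⟨Finset.mem_Icc.2 ⟨p.2.one_lt.le, h3⟩, p.2⟩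
          · intro n hn _
            obtain ⟨h3, h4⟩ := lf_pos h2 (Finset.mem_filter.1 hn).2
            have := Real.log_nonpos h3.le h4
            linarith
  have hB : ∑ p ∈ S.filter (fun p : Nat.Primes => ¬ (p : ℕ) ≤ z), uu χ (1 + w) p ≤
      ((Gj (1 : DirichletCharacter ℂ q) 0 (1 + w)).re + (Gj χ 0 (1 + w)).re) / Real.log z +
      4 / z := by
    set T : Finset ℕ := (S.filter (fun p : Nat.Primes => ¬ (p : ℕ) ≤ z)).map
      ⟨fun p : Nat.Primes => (p : ℕ), Subtype.val_injective⟩ with hT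
    have hTm : ∀ p ∈ T, p.Prime ∧ z < p := by
      intro n hn
      obtain ⟨p, hp, rfl⟩ := Finset.mem_map.1 hn
      have h3 := (Finset.mem_filter.1 hp).2
      exact ⟨p.2, not_le.1 h3⟩
    have h3 : ∑ p ∈ S.filter (fun p : Nat.Primes => ¬ (p : ℕ) ≤ z), uu χ (1 + w) p ≤
        ∑ n ∈ T, ((1 + vr χ n) * (n : ℝ) ^ (-(1 + w)) + 4 * ((n : ℝ) ^ 2)⁻¹) := by
      rw [hT, Finset.sum_map]
      exact Finset.sum_le_sum fun p _ => uu_tail h2 p.2 hs
    refine h3.trans ?_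
    rw [Finset.sum_add_distrib]
    apply add_le_add
    · rw [le_div_iff₀ hlz, Finset.sum_mul]
      refine le_trans (Finset.sum_le_sum fun n hn => ?_) (xd_large h2 hz hw T hTm)
      obtain ⟨h4, h5⟩ := hTm n hn
      have h6 : Real.log z ≤ Real.log n := Real.log_le_log hz0 (by exact_mod_cast h5.le)
      apply mul_le_mul_of_nonneg_left h6
      apply mul_nonneg
      · rcases vr_cases h2 n with h | h | h <;> rw [h] <;> norm_num
      · exact Real.rpow_nonneg (Nat.cast_nonneg _) _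
    · rw [← Finset.mul_sum, div_eq_mul_inv]
      apply mul_le_mul_of_nonneg_left _ (by norm_num)
      obtain ⟨M, hM⟩ : ∃ M : ℕ, ∀ n ∈ T, n ≤ M := ⟨T.sup id, fun n hn => Finset.le_sup (f := id) hn⟩
      calc ∑ n ∈ T, ((n : ℝ) ^ 2)⁻¹ ≤ ∑ n ∈ Ioc z (max z M), ((n : ℝ) ^ 2)⁻¹ := by
            apply Finset.sum_le_sum_of_subset_of_nonneg
            · intro n hn
              rw [Finset.mem_Ioc]
              exact ⟨(hTm n hn).2, (hM n hn).trans (le_max_right _ _)⟩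
            · intro n _ _
              positivity
        _ ≤ (z : ℝ)⁻¹ - ((max z M : ℕ) : ℝ)⁻¹ :=
            sum_Ioc_inv_sq_le_sub (by omega) (le_max_left _ _)
        _ ≤ (z : ℝ)⁻¹ := by
            have : (0 : ℝ) ≤ ((max z M : ℕ) : ℝ)⁻¹ := by positivity
            linarith
  linarith

/-- `1/w ≤ ζ(1+w) ≤ (1+w)/w` -/
theorem xd_zeta {w : ℝ} (hw : 0 < w) : ∃ ζ₀ : ℝ, riemannZeta ((1 + w : ℝ) : ℂ) = (ζ₀ : ℂ) ∧
    1 / w ≤ ζ₀ ∧ ζ₀ ≤ (1 + w) / w := by
  have hs : 1 < 1 + w := by linarith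
  refine ⟨∑' n : ℕ, (n : ℝ) ^ (-(1 + w)), ?_, ?_, ?_⟩
  · rw [zeta_eq_tsum_one_div_nat_cpow (by simpa using hw), Complex.ofReal_tsum]
    refine tsum_congr fun n => ?_
    rcases Nat.eq_zero_or_pos n with rfl | hn
    · rw [Nat.cast_zero, Nat.cast_zero, Complex.zero_cpow, Real.zero_rpow (by linarith)]
      · simp
      · intro h
        have := congrArg Complex.re h
        simp at this
        linarith
    · have hn0 : (0 : ℝ) < n := by exact_mod_cast hn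
      rw [Real.rpow_neg hn0.le, Complex.ofReal_inv, Complex.ofReal_cpow hn0.le, one_div]
      push_cast
      rfl
  · have := zs_ge hs
    rwa [add_sub_cancel_left] at this
  · have := zs_le hs
    rwa [add_sub_cancel_left] at this

end Pool.Agent.EXC
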