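import Pool.Agent.Lib_helper15.EXC.XD

/-!
# EXC, part X: the L-function of an exceptional character near `1`

Block XE: theorems X1b, X2, X3.
-/

set_option autoImplicit false

namespace Pool.Agent.EXC

open Finset Complex Metric Filter
open Pool.Agent.GA
open scoped ArithmeticFunction.vonMangoldt Topology

/-- `-ζ'/ζ - L'/L` to the right of `1` -/
theorem xe_upper : ∃ C : ℝ, 1 ≤ C ∧ ∀ (q : ℕ) [NeZero q]
    (χ : DirichletCharacter ℂ q), χ ≠ 1 → ∀ β : ℝ, LF χ (β : ℂ) = 0 → ∀ w ℒ : ℝ,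
    lt q 0 ≤ ℒ → Real.exp (-ℒ) ≤ w → w ≤ 1 / 16 → 1 - β ≤ 1 / 16 →
    (Gj (1 : DirichletCharacter ℂ q) 0 (1 + w)).re + (Gj χ 0 (1 + w)).re ≤
      (1 - β) / w ^ 2 + C * ℒ := by
  obtain ⟨C₁, hC₁, hP⟩ := principal_upper
  obtain ⟨C₂, hC₂, hN⟩ := v1h5_upper
  refine ⟨C₁ + C₂, by linarith, fun q _ χ hχ β hβ w ℒ hlt hexp hw1 hδ1 => ?_⟩
  have hw0 : 0 < w := lt_of_lt_of_le (Real.exp_pos _) hexp
  have hℒ1 : 1 ≤ ℒ := (one_le_lt (three_le hχ) 0).trans hlt
  have h1 := hP q 0 w ℒ hlt hℒ1 hexp hw1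
  have hβ1 : 0 < 1 - β := by
    have := z3_zero_re hχ hβ
    rw [Complex.ofReal_re] at this
    linarith
  have e : (1 + w + ((0 : ℝ) : ℂ) * I - (β : ℂ) : ℂ) = ((w + (1 - β) : ℝ) : ℂ) := by
    push_cast; ring
  have h2 := hN q χ hχ 0 w ℒ hlt hexp hw1 {(β : ℂ)} (by
    intro ρ hρ
    rw [Finset.mem_singleton] at hρ
    subst hρ
    refine ⟨hβ, ?_⟩
    rw [e, Complex.norm_real, Real.norm_of_nonneg (by linarith)]
    linarith)
  rw [Finset.sum_singleton, e, z3_inv hw0 hβ1] at h2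
  rw [z1_c0] at h1 h2
  have e2 : w / (w ^ 2 + 0 ^ 2) = 1 / w := by field_simp; ring
  rw [e2] at h1
  have hm := one_le_mlt (LF_diff hχ) (LF_ne_zero hχ (by norm_num) : LF χ 2 ≠ 0) hβ
  have h3 : 0 < 1 / (w + (1 - β)) := by positivity
  have h4 : 1 / w - 1 / (w + (1 - β)) ≤ (1 - β) / w ^ 2 := by
    have h5 : 1 / w - 1 / (w + (1 - β)) = (1 - β) / (w * (w + (1 - β))) := by field_simp; ring
    rw [h5]
    apply div_le_div_of_nonneg_left hβ1.le (by positivity)
    rw [sq]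
    apply mul_le_mul_of_nonneg_left _ hw0.le
    linarith
  nlinarith

theorem xe_exp {l η : ℝ} (hl : 0 < l) (hη : 0 < η) : Real.exp (-(l + 1 / η)) ≤ η / l := by
  have h1 : l ≤ Real.exp l := by
    have := Real.add_one_le_exp l
    linarith
  have h2 : 1 / η ≤ Real.exp (1 / η) := by
    have := Real.add_one_le_exp (1 / η)
    linarith
  rw [neg_add, Real.exp_add, Real.exp_neg, Real.exp_neg]
  have h3 : (Real.exp l)⁻¹ ≤ l⁻¹ := inv_anti₀ hl h1
  have h4 : (Real.exp (1 / η))⁻¹ ≤ (1 / η)⁻¹ := inv_anti₀ (by positivity) h2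
  calc (Real.exp l)⁻¹ * (Real.exp (1 / η))⁻¹ ≤ l⁻¹ * (1 / η)⁻¹ :=
        mul_le_mul h3 h4 (by positivity) (by positivity)
    _ = η / l := by
        rw [one_div, inv_inv]
        ring

/-- **X1, X1b, X2** -/
theorem x2 : ∃ C : ℝ, 1 ≤ C ∧ ∃ c : ℝ, 0 < c ∧ c ≤ 1 / 16 ∧ ∀ (q : ℕ) [NeZero q]
    (χ : DirichletCharacter ℂ q), χ ≠ 1 → χ ^ 2 = 1 → ∀ β : ℝ, LF χ (β : ℂ) = 0 →
    (1 - β) * Real.log q ≤ c →
    0 < 1 - β ∧ ∃ (g : ℂ → ℂ) (g₀ : ℝ), Differentiable ℂ g ∧ 1 / 8 ≤ g₀ ∧ g 0 = (g₀ : ℂ) ∧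
      (∀ w, LF χ (1 + w) = (w + (1 - β : ℝ)) * g w) ∧
      (∀ w : ℂ, ‖w‖ ≤ c / Real.log q → g w ≠ 0 ∧ ‖g w‖ ≤ 2 * g₀ ∧
        ‖g w - g₀‖ ≤ C * Real.log q * ‖w‖ * g₀) ∧
      ∀ η : ℝ, 0 < η → η ≤ c → ∀ z : ℕ, q ≤ z →
        g₀ * (1 - C * η) * pz χ z ≤ Real.exp (C * ((1 - β) * Real.log q ^ 2 / η ^ 2 +
          Real.log q + 1 / η) / Real.log z + C / z) := by
  obtain ⟨C₁, hC₁, c₁, hc₁, hc₁1, hX1⟩ := x1
  obtain ⟨C₂, hC₂, hup⟩ := xe_upper
  refine ⟨C₁ + 4 * C₂ + 4, by linarith, min c₁ (1 / 16), by positivity, min_le_right _ _,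
    fun q _ χ hχ hχ2 β hβ hβq => ?_⟩
  obtain ⟨hβ1, g, g₀, hg, hg₀, hg0, hfac, hball⟩ :=
    hX1 q χ hχ hχ2 β hβ (hβq.trans (min_le_left _ _))
  have hq3 := three_le hχ
  have hqr : (3 : ℝ) ≤ q := by exact_mod_cast hq3
  have hlq : 1 ≤ Real.log q := by
    rw [Real.le_log_iff_exp_le (by linarith)]
    have := Real.exp_one_lt_d9
    linarith
  have hlq0 : 0 < Real.log q := by linarith
  have hltq : lt q 0 ≤ 2 * Real.log q := by
    unfold lt
    rw [abs_zero, zero_add, Real.log_mul (by positivity) (by norm_num)]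
    have : Real.log 2 ≤ Real.log q := Real.log_le_log (by norm_num) (by linarith)
    linarith
  have hδ1 : 1 - β ≤ 1 / 16 := by
    have h1 := hβq.trans (min_le_right _ _)
    nlinarith
  -- the value of `L` in terms of the Euler product
  have hval : ∀ w : ℝ, 0 < w → w ≤ min c₁ (1 / 16) / Real.log q → ∃ ζ₀ : ℝ, 1 / w ≤ ζ₀ ∧
      ζ₀ ≤ (1 + w) / w ∧ ζ₀ * ((w + (1 - β)) * ‖g w‖) =
        Real.exp (∑' p : Nat.Primes, uu χ (1 + w) p) ∧ g₀ * (1 - C₁ * Real.log q * w) ≤ ‖g w‖ ∧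
        ‖g w‖ ≤ 2 * g₀ := by
    intro w hw hwc
    obtain ⟨ζ₀, h1, h2, h3⟩ := xd_zeta hw
    refine ⟨ζ₀, h2, h3, ?_, ?_, ?_⟩
    · have h4 := (xd_euler (χ := χ) hχ2 (s := 1 + w) (by linarith)).2
      rw [h1] at h4
      have h5 : LF χ ((1 + w : ℝ) : ℂ) = (w + (1 - β : ℝ)) * g w := by
        rw [← hfac]
        push_cast
        rfl
      rw [h5] at h4
      have h6 := congrArg norm h4
      rw [norm_mul, norm_mul, Complex.norm_real, Complex.norm_real,
        Real.norm_of_nonneg (Real.exp_pos _).le] at h6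
      have h7 : ‖((w : ℂ) + ((1 - β : ℝ) : ℂ))‖ = w + (1 - β) := by
        rw [← Complex.ofReal_add, Complex.norm_real, Real.norm_of_nonneg (by linarith)]
      rw [h7, Real.norm_of_nonneg (le_trans (by positivity) h2)] at h6
      exact h6
    · have h4 : ‖(w : ℂ)‖ = w := by rw [Complex.norm_real, Real.norm_of_nonneg hw.le]
      obtain ⟨-, -, h5⟩ := hball (w : ℂ) (by
        rw [h4]
        exact hwc.trans (div_le_div_of_nonneg_right (min_le_left _ _) hlq0.le))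
      rw [h4] at h5
      have h6 := norm_sub_norm_le ((g₀ : ℂ)) (g w)
      rw [Complex.norm_real, Real.norm_of_nonneg hg₀.le, norm_sub_rev] at h6
      linarith
    · have h4 : ‖(w : ℂ)‖ = w := by rw [Complex.norm_real, Real.norm_of_nonneg hw.le]
      exact (hball (w : ℂ) (by
        rw [h4]
        exact hwc.trans (div_le_div_of_nonneg_right (min_le_left _ _) hlq0.le))).2.1
  have hg8 : 1 / 8 ≤ g₀ := by
    set w : ℝ := min c₁ (1 / 16) / Real.log q with hw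
    have hw0 : 0 < w := by positivity
    have hw1 : w ≤ 1 := by
      rw [hw, div_le_one hlq0]
      exact (min_le_right _ _).trans (by linarith)
    obtain ⟨ζ₀, h1, h2, h3, -, h5⟩ := hval w hw0 le_rfl
    have h6 : 0 ≤ ∑' p : Nat.Primes, uu χ (1 + w) p :=
      tsum_nonneg fun p => uu_nonneg hχ2 p.2 (by linarith)
    have h7 : 1 ≤ ζ₀ * ((w + (1 - β)) * ‖g w‖) := by
      rw [h3]
      exact Real.one_le_exp h6
    have h8 : 1 - β ≤ w := by
      rw [hw, le_div_iff₀ hlq0]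
      exact hβq
    have h9 : ζ₀ * ((w + (1 - β)) * ‖g w‖) ≤ (1 + w) / w * ((w + w) * (2 * g₀)) := by
      apply mul_le_mul h2 _ (by positivity) (by positivity)
      apply mul_le_mul (by linarith) h5 (norm_nonneg _) (by linarith)
    have h10 : (1 + w) / w * ((w + w) * (2 * g₀)) = 4 * (1 + w) * g₀ := by
      field_simp
      ring
    nlinarith
  refine ⟨hβ1, g, g₀, hg, hg8, hg0, hfac, ?_, ?_⟩
  · intro w hw
    obtain ⟨h1, h2, h3⟩ := hball w
      (hw.trans (div_le_div_of_nonneg_right (min_le_left _ _) hlq0.le))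
    refine ⟨h1, h2, h3.trans ?_⟩
    have : C₁ ≤ C₁ + 4 * C₂ + 4 := by linarith
    gcongr
  · intro η hη hηc z hz
    have hz0 : (0 : ℝ) < z := by exact_mod_cast (by omega : 0 < z)
    have hlz : 0 < Real.log z := Real.log_pos (by exact_mod_cast (by omega : 1 < z))
    set w : ℝ := η / Real.log q with hw
    have hw0 : 0 < w := by positivity
    have hwc : w ≤ min c₁ (1 / 16) / Real.log q := div_le_div_of_nonneg_right hηc hlq0.le
    have hw16 : w ≤ 1 / 16 := by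
      refine hwc.trans ?_
      rw [div_le_iff₀ hlq0]
      have := min_le_right c₁ (1 / 16)
      nlinarith
    obtain ⟨ζ₀, h1, h2, h3, h4, -⟩ := hval w hw0 hwc
    have hsum := xd_sum (χ := χ) hχ2 hz (by omega) hw0
    have hG := hup q χ hχ β hβ w (2 * Real.log q + 1 / η) (by
      have : 0 < 1 / η := by positivity
      linarith) (by
      refine (Real.exp_le_exp.2 ?_).trans (xe_exp hlq0 hη)
      linarith) hw16 hδ1
    have hpz := pz_pos hχ2 z
    set E : ℝ := ((Gj (1 : DirichletCharacter ℂ q) 0 (1 + w)).re + (Gj χ 0 (1 + w)).re) /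
      Real.log z + 4 / z with hE
    have h5 : Real.exp (∑' p : Nat.Primes, uu χ (1 + w) p) ≤ (pz χ z)⁻¹ * Real.exp E := by
      calc Real.exp (∑' p : Nat.Primes, uu χ (1 + w) p) ≤ Real.exp (-Real.log (pz χ z) + E) := by
            apply Real.exp_le_exp.2
            rw [hE]
            linarith
        _ = _ := by rw [Real.exp_add, Real.exp_neg, Real.exp_log hpz]
    have h6 : g₀ * (1 - (C₁ + 4 * C₂ + 4) * η) ≤ ‖g w‖ := by
      refine le_trans ?_ h4
      have e1 : C₁ * Real.log q * w = C₁ * η := by rw [hw]; field_simp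
      rw [e1]
      apply mul_le_mul_of_nonneg_left _ hg₀.le
      nlinarith
    have h7 : ‖g w‖ ≤ (pz χ z)⁻¹ * Real.exp E := by
      refine le_trans ?_ h5
      rw [← h3]
      have h8 : 1 ≤ ζ₀ * (w + (1 - β)) := by
        calc (1 : ℝ) = 1 / w * w := by field_simp
          _ ≤ ζ₀ * (w + (1 - β)) := by
            apply mul_le_mul h1 (by linarith) hw0.le (le_trans (by positivity) h1)
      calc ‖g w‖ = 1 * ‖g w‖ := (one_mul _).symm
        _ ≤ (ζ₀ * (w + (1 - β))) * ‖g w‖ := mul_le_mul_of_nonneg_right h8 (norm_nonneg _)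
        _ = _ := by ring
    have h9 : E ≤ (C₁ + 4 * C₂ + 4) * ((1 - β) * Real.log q ^ 2 / η ^ 2 + Real.log q + 1 / η) /
        Real.log z + (C₁ + 4 * C₂ + 4) / z := by
      rw [hE]
      apply add_le_add
      · apply div_le_div_of_nonneg_right _ hlz.le
        refine hG.trans ?_
        have e2 : (1 - β) / w ^ 2 = (1 - β) * Real.log q ^ 2 / η ^ 2 := by
          rw [hw]; field_simp
        rw [e2]
        have e3 : 0 ≤ (1 - β) * Real.log q ^ 2 / η ^ 2 := by positivity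
        have e4 : 0 < 1 / η := by positivity
        have k1 : (1 - β) * Real.log q ^ 2 / η ^ 2 ≤
            (C₁ + 4 * C₂ + 4) * ((1 - β) * Real.log q ^ 2 / η ^ 2) :=
          le_mul_of_one_le_left e3 (by linarith)
        have k2 : C₂ * (2 * Real.log q + 1 / η) ≤
            (C₁ + 4 * C₂ + 4) * (Real.log q + 1 / η) := by nlinarith
        linarith
      · apply div_le_div_of_nonneg_right _ hz0.le
        linarith
    calc g₀ * (1 - (C₁ + 4 * C₂ + 4) * η) * pz χ z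
        ≤ ((pz χ z)⁻¹ * Real.exp E) * pz χ z :=
          mul_le_mul_of_nonneg_right (h6.trans h7) hpz.le
      _ = Real.exp E := by field_simp
      _ ≤ _ := Real.exp_le_exp.2 h9

end Pool.Agent.EXC
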