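import Pool.Agent.Lib_helper15.EXC.XE

/-!
# EXC, part X: the L-function of an exceptional character near `1`

Block XF: theorem X3, there are few primes with `χ(p) = 1`.
-/

set_option autoImplicit false

namespace Pool.Agent.EXC

open Finset Complex Metric Filter
open Pool.Agent.GA
open scoped ArithmeticFunction.vonMangoldt Topology

/-- primes in `(y, y²]` -/
theorem xf_block : ∃ C : ℝ, 1 ≤ C ∧ ∀ (q : ℕ) [NeZero q]
    (χ : DirichletCharacter ℂ q), χ ≠ 1 → χ ^ 2 = 1 → ∀ β : ℝ, LF χ (β : ℂ) = 0 →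
    1 - β ≤ 1 / 16 → ∀ y : ℕ, q ≤ y → 16 ≤ Real.log y → ∀ S : Finset ℕ,
    (∀ p ∈ S, p.Prime ∧ y < p ∧ p ≤ y ^ 2) →
    ∑ p ∈ S, (1 + vr χ p) / p ≤ Real.exp 2 * ((1 - β) * Real.log y +
      C * (lt q 0 + Real.log (Real.log y)) / Real.log y) := by
  obtain ⟨C, hC, hup⟩ := xe_upper
  refine ⟨C, hC, fun q _ χ hχ hχ2 β hβ hδ y hy hY S hS => ?_⟩
  set Y : ℝ := Real.log y with hYdef
  have hY0 : 0 < Y := by linarith
  have hlY : 0 ≤ Real.log Y := Real.log_nonneg (by linarith)
  have hlt1 := one_le_lt (three_le hχ) 0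
  have hG := hup q χ hχ β hβ (1 / Y) (lt q 0 + Real.log Y) (by linarith) (by
    rw [neg_add, Real.exp_add, Real.exp_neg (Real.log Y), Real.exp_log hY0, one_div]
    calc Real.exp (-lt q 0) * Y⁻¹ ≤ 1 * Y⁻¹ := by
          apply mul_le_mul_of_nonneg_right _ (by positivity)
          rw [Real.exp_le_one_iff]
          linarith
      _ = Y⁻¹ := one_mul _) (by
    rw [div_le_div_iff₀ hY0 (by norm_num)]
    linarith) hδ
  have hL := xd_large (χ := χ) hχ2 hy (w := 1 / Y) (by positivity) S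
    (fun p hp => ⟨(hS p hp).1, (hS p hp).2.1⟩)
  have e1 : (1 - β) / (1 / Y) ^ 2 = (1 - β) * Y ^ 2 := by field_simp
  rw [e1] at hG
  have hterm : ∀ p ∈ S, (1 + vr χ p) / p * (Real.exp (-2) * Y) ≤
      (1 + vr χ p) * (p : ℝ) ^ (-(1 + 1 / Y)) * Real.log p := by
    intro p hp
    obtain ⟨h1, h2, h3⟩ := hS p hp
    have hp0 : (0 : ℝ) < p := by exact_mod_cast h1.pos
    have hy0 : (0 : ℝ) < y := by
      rcases Nat.eq_zero_or_pos y with h | h
      · rw [h] at hYdef
        rw [hYdef, Nat.cast_zero, Real.log_zero] at hY0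
        exact absurd hY0 (lt_irrefl _)
      · exact_mod_cast h
    have hlogp : Y ≤ Real.log p := Real.log_le_log hy0 (by exact_mod_cast h2.le)
    have hlogp2 : Real.log p ≤ 2 * Y := by
      have : Real.log p ≤ Real.log ((y : ℝ) ^ 2) :=
        Real.log_le_log hp0 (by exact_mod_cast h3)
      rwa [Real.log_pow, Nat.cast_two] at this
    have hv : 0 ≤ 1 + vr χ p := by
      rcases vr_cases hχ2 p with h | h | h <;> rw [h] <;> norm_num
    have h4 : Real.exp (-2) / p ≤ (p : ℝ) ^ (-(1 + 1 / Y)) := by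
      rw [neg_add, Real.rpow_add hp0, Real.rpow_neg_one, div_eq_mul_inv, mul_comm]
      apply mul_le_mul_of_nonneg_left _ (by positivity)
      rw [Real.rpow_def_of_pos hp0]
      apply Real.exp_le_exp.2
      have h5 : Real.log p * (1 / Y) ≤ 2 := by
        rw [mul_one_div, div_le_iff₀ hY0]
        linarith
      linarith
    calc (1 + vr χ p) / p * (Real.exp (-2) * Y) = (1 + vr χ p) * (Real.exp (-2) / p) * Y := by
          ring
      _ ≤ (1 + vr χ p) * (p : ℝ) ^ (-(1 + 1 / Y)) * Real.log p := by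
          apply mul_le_mul _ hlogp hY0.le
          · exact mul_nonneg hv (Real.rpow_nonneg hp0.le _)
          · exact mul_le_mul_of_nonneg_left h4 hv
  have hsum : (∑ p ∈ S, (1 + vr χ p) / p) * (Real.exp (-2) * Y) ≤
      (1 - β) * Y ^ 2 + C * (lt q 0 + Real.log Y) := by
    rw [Finset.sum_mul]
    exact (Finset.sum_le_sum hterm).trans (hL.trans hG)
  have he : Real.exp 2 * Real.exp (-2) = 1 := by
    rw [← Real.exp_add]; norm_num
  have he0 := Real.exp_pos 2
  have e2 : ∑ p ∈ S, (1 + vr χ p) / p =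
      Real.exp 2 * (((∑ p ∈ S, (1 + vr χ p) / p) * (Real.exp (-2) * Y)) / Y) := by
    calc ∑ p ∈ S, (1 + vr χ p) / p = (Real.exp 2 * Real.exp (-2)) *
          (∑ p ∈ S, (1 + vr χ p) / p) * (Y / Y) := by
          rw [he, div_self hY0.ne']; ring
      _ = _ := by ring
  rw [e2]
  apply mul_le_mul_of_nonneg_left _ he0.le
  rw [div_le_iff₀ hY0]
  refine hsum.trans (le_of_eq ?_)
  field_simp

/-- the sum over the primes in `(z, x]` -/
noncomputable def sp {q : ℕ} (χ : DirichletCharacter ℂ q) (z x : ℕ) : ℝ :=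
  ∑ p ∈ (Ioc z x).filter Nat.Prime, (1 + vr χ p) / p

theorem sp_term {q : ℕ} {χ : DirichletCharacter ℂ q} (h2 : χ ^ 2 = 1) (p : ℕ) :
    0 ≤ (1 + vr χ p) / p := by
  apply div_nonneg _ (Nat.cast_nonneg _)
  rcases vr_cases h2 p with h | h | h <;> rw [h] <;> norm_num

theorem sp_split {q : ℕ} (χ : DirichletCharacter ℂ q) {z y x : ℕ} (h1 : z ≤ y) (h2 : y ≤ x) :
    sp χ z x = sp χ z y + sp χ y x := by
  unfold sp
  rw [← Finset.sum_union]
  · congr 1
    rw [← Finset.filter_union, Finset.Ioc_union_Ioc_eq_Ioc h1 h2]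
  · rw [Finset.disjoint_left]
    intro p hp hp'
    have h3 := (Finset.mem_Ioc.1 (Finset.mem_filter.1 hp).1).2
    have h4 := (Finset.mem_Ioc.1 (Finset.mem_filter.1 hp').1).1
    omega

theorem xf_ind {q : ℕ} [NeZero q] {χ : DirichletCharacter ℂ q} (h2 : χ ^ 2 = 1) {C β : ℝ}
    (hC : 1 ≤ C)
    (hblock : ∀ y : ℕ, q ≤ y → 16 ≤ Real.log y → ∀ S : Finset ℕ,
      (∀ p ∈ S, p.Prime ∧ y < p ∧ p ≤ y ^ 2) →
      ∑ p ∈ S, (1 + vr χ p) / p ≤ Real.exp 2 * ((1 - β) * Real.log y +
        C * (lt q 0 + Real.log (Real.log y)) / Real.log y)) (hlt : 0 ≤ lt q 0) (J : ℕ) :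
    ∀ z x : ℕ, q ≤ z → 16 ≤ Real.log z → x ≤ z ^ 2 ^ J →
      sp χ z x ≤ Real.exp 2 * ((1 - β) * ((2 ^ J - 1) * Real.log z) +
        C * (2 * (lt q 0 + Real.log (Real.log z)) + 2) / Real.log z) := by
  induction J with
  | zero =>
    intro z x hz hz16 hx
    rw [pow_zero, pow_one] at hx
    have h3 : sp χ z x = 0 := by
      unfold sp
      rw [Finset.Ioc_eq_empty (by omega), Finset.filter_empty, Finset.sum_empty]
    have hl : 0 ≤ Real.log (Real.log z) := Real.log_nonneg (by linarith)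
    have hz0 : 0 < Real.log z := by linarith
    rw [h3, pow_zero, sub_self, zero_mul, mul_zero, zero_add]
    positivity
  | succ J ih =>
    intro z x hz hz16 hx
    have hz0 : 0 < Real.log z := by linarith
    have hl : 0 ≤ Real.log (Real.log z) := Real.log_nonneg (by linarith)
    have hz1 : 1 ≤ z := by
      rcases Nat.eq_zero_or_pos z with h | h
      · rw [h, Nat.cast_zero, Real.log_zero] at hz0
        exact absurd hz0 (lt_irrefl _)
      · exact h
    have hzz : z ≤ z ^ 2 := by nlinarith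
    have hb := hblock z hz hz16
    have hlog2 : Real.log ((z ^ 2 : ℕ) : ℝ) = 2 * Real.log z := by
      rw [Nat.cast_pow, Real.log_pow, Nat.cast_two]
    have hll : Real.log (Real.log ((z ^ 2 : ℕ) : ℝ)) = Real.log 2 + Real.log (Real.log z) := by
      rw [hlog2, Real.log_mul (by norm_num) hz0.ne']
    have hI := ih (z ^ 2) (max x (z ^ 2)) (hz.trans hzz) (by rw [hlog2]; linarith) (by
      apply max_le
      · refine hx.trans (le_of_eq ?_)
        rw [← pow_mul, pow_succ']
      · calc z ^ 2 = (z ^ 2) ^ 1 := (pow_one _).symm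
          _ ≤ (z ^ 2) ^ 2 ^ J := Nat.pow_le_pow_right (by positivity) Nat.one_le_two_pow)
    have h4 : sp χ z x ≤ sp χ z (z ^ 2) + sp χ (z ^ 2) (max x (z ^ 2)) := by
      rw [← sp_split χ hzz (le_max_right _ _)]
      unfold sp
      apply Finset.sum_le_sum_of_subset_of_nonneg
      · apply Finset.filter_subset_filter
        exact Finset.Ioc_subset_Ioc_right (le_max_left _ _)
      · intro p _ _
        exact sp_term h2 p
    have h5 : sp χ z (z ^ 2) ≤ Real.exp 2 * ((1 - β) * Real.log z +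
        C * (lt q 0 + Real.log (Real.log z)) / Real.log z) := by
      unfold sp
      apply hb
      intro p hp
      obtain ⟨h6, h7⟩ := Finset.mem_filter.1 hp
      obtain ⟨h8, h9⟩ := Finset.mem_Ioc.1 h6
      exact ⟨h7, h8, h9⟩
    rw [hll, hlog2] at hI
    refine h4.trans ((add_le_add h5 hI).trans ?_)
    rw [← mul_add]
    apply mul_le_mul_of_nonneg_left _ (Real.exp_pos 2).le
    have hlg2 := Real.log_two_lt_d9
    have e1 : (1 - β) * Real.log z + (1 - β) * ((2 ^ J - 1) * (2 * Real.log z)) =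
        (1 - β) * ((2 ^ (J + 1) - 1) * Real.log z) := by
      rw [pow_succ]; ring
    have e2 : C * (lt q 0 + Real.log (Real.log z)) / Real.log z +
        C * (2 * (lt q 0 + (Real.log 2 + Real.log (Real.log z))) + 2) / (2 * Real.log z) ≤
        C * (2 * (lt q 0 + Real.log (Real.log z)) + 2) / Real.log z := by
      have e3 : C * (2 * (lt q 0 + (Real.log 2 + Real.log (Real.log z))) + 2) / (2 * Real.log z) =
          C * (lt q 0 + Real.log 2 + Real.log (Real.log z) + 1) / Real.log z := by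
        field_simp
        ring
      rw [e3, ← add_div]
      apply div_le_div_of_nonneg_right _ hz0.le
      nlinarith
    linarith

/-- **X3** -/
theorem x3 : ∃ C : ℝ, 1 ≤ C ∧ ∀ (q : ℕ) [NeZero q]
    (χ : DirichletCharacter ℂ q), χ ≠ 1 → χ ^ 2 = 1 → ∀ β : ℝ, LF χ (β : ℂ) = 0 →
    1 - β ≤ 1 / 16 → ∀ z x : ℕ, q ≤ z → 16 ≤ Real.log z → z ≤ x →
    sp χ z x ≤ C * ((1 - β) * Real.log x +
      (Real.log q + Real.log (Real.log z)) / Real.log z) := by
  obtain ⟨C, hC, hblock⟩ := xf_block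
  refine ⟨Real.exp 2 * (6 * C), ?_, fun q _ χ hχ hχ2 β hβ hδ z x hz hz16 hzx => ?_⟩
  · have : 1 ≤ Real.exp 2 := Real.one_le_exp (by norm_num)
    nlinarith
  have hq3 := three_le hχ
  have hqr : (3 : ℝ) ≤ q := by exact_mod_cast hq3
  have hlq : 1 ≤ Real.log q := by
    rw [Real.le_log_iff_exp_le (by linarith)]
    have := Real.exp_one_lt_d9
    linarith
  have hltq : lt q 0 ≤ 2 * Real.log q := by
    unfold lt
    rw [abs_zero, zero_add, Real.log_mul (by positivity) (by norm_num)]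
    have : Real.log 2 ≤ Real.log q := Real.log_le_log (by norm_num) (by linarith)
    linarith
  have hβ1 : 0 < 1 - β := by
    have := z3_zero_re hχ hβ
    rw [Complex.ofReal_re] at this
    linarith
  have hz0 : 0 < Real.log z := by linarith
  have hll : 0 ≤ Real.log (Real.log z) := Real.log_nonneg (by linarith)
  have hzR : (0 : ℝ) < z := by exact_mod_cast (by omega : 0 < z)
  have hlx : Real.log z ≤ Real.log x := Real.log_le_log hzR (by exact_mod_cast hzx)
  have hz2 : 2 ≤ z := by omega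
  have hex : ∃ J : ℕ, x ≤ z ^ 2 ^ J := by
    refine ⟨x, ?_⟩
    calc x ≤ 2 ^ x := Nat.lt_two_pow_self.le
      _ ≤ 2 ^ 2 ^ x := Nat.pow_le_pow_right (by norm_num) Nat.lt_two_pow_self.le
      _ ≤ z ^ 2 ^ x := Nat.pow_le_pow_left hz2 _
  classical
  have hJ := Nat.find_spec hex
  have hJ2 : ((2 : ℝ) ^ Nat.find hex - 1) * Real.log z ≤ 2 * Real.log x := by
    rcases Nat.eq_zero_or_pos (Nat.find hex) with h | h
    · rw [h, pow_zero, sub_self, zero_mul]
      linarith
    · have h3 := Nat.find_min hex (m := Nat.find hex - 1) (by omega)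
      push Not at h3
      have h4 : ((z ^ 2 ^ (Nat.find hex - 1) : ℕ) : ℝ) ≤ x := by exact_mod_cast h3.le
      have h5 := Real.log_le_log (by positivity) h4
      rw [Nat.cast_pow, Real.log_pow] at h5
      have h6 : (2 : ℝ) ^ Nat.find hex = 2 * 2 ^ (Nat.find hex - 1) := by
        rw [← pow_succ']
        congr 1
        omega
      rw [h6]
      push_cast at h5
      nlinarith
  have h7 := xf_ind hχ2 hC (hblock q χ hχ hχ2 β hβ hδ)
    (by have := one_le_lt hq3 0; linarith) (Nat.find hex) z x hz hz16 hJ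
  refine h7.trans ?_
  rw [mul_assoc (Real.exp 2)]
  apply mul_le_mul_of_nonneg_left _ (Real.exp_pos 2).le
  have h8 : (1 - β) * ((2 ^ Nat.find hex - 1) * Real.log z) ≤ 6 * C * ((1 - β) * Real.log x) := by
    have h9 : (1 - β) * ((2 ^ Nat.find hex - 1) * Real.log z) ≤ (1 - β) * (2 * Real.log x) :=
      mul_le_mul_of_nonneg_left hJ2 hβ1.le
    have h10 : 0 ≤ (1 - β) * Real.log x := mul_nonneg hβ1.le (by linarith)
    nlinarith
  have h9 : C * (2 * (lt q 0 + Real.log (Real.log z)) + 2) / Real.log z ≤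
      6 * C * ((Real.log q + Real.log (Real.log z)) / Real.log z) := by
    rw [← mul_div_assoc]
    apply div_le_div_of_nonneg_right _ hz0.le
    nlinarith
  linarith

end Pool.Agent.EXC
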